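import Mathlib

/-!
# Truth-trees with parity

Formulas with negation, conjunction, disjunction and a primitive arrow; truth-trees
with traces, critical nodes and parity.
-/

namespace Pool.Agent.R599.TT

/-- Formulas: sentence letters, negation, conjunction, disjunction, arrow. -/
inductive Fm
  | var (n : ℕ)
  | neg (φ : Fm)
  | and (φ ψ : Fm)
  | or (φ ψ : Fm)
  | imp (φ ψ : Fm)
  deriving DecidableEq

/-- The sentence letters of a formula. -/
def Fm.letters : Fm → Set ℕ
  | .var n => {n}
  | .neg φ => φ.letters
  | .and φ ψ => φ.letters ∪ ψ.letters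
  | .or φ ψ => φ.letters ∪ ψ.letters
  | .imp φ ψ => φ.letters ∪ ψ.letters

/-- A node of a branch of a truth-tree: its identifier, its formula, its trace (a set of
identifiers of nodes), and, when the node is critical, the identifier of its partner. -/
structure Node where
  id : ℕ
  fm : Fm
  tr : Set ℕ
  partner : Option ℕ

/-- The identifier `i` is not used on the branch `B`. -/
def Fresh (B : List Node) (i : ℕ) : Prop := ∀ n ∈ B, n.id ≠ i

/-- A new non-critical node with identifier `i` and formula `φ`; `T` is the union of the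
traces of its inputs. -/
def plain (i : ℕ) (φ : Fm) (T : Set ℕ) : Node := ⟨i, φ, insert i T, none⟩

/-- A new critical node with identifier `i`, formula `φ` and partner `p`; `T` is the union
of the traces of its inputs. -/
def crit (i : ℕ) (φ : Fm) (T : Set ℕ) (p : ℕ) : Node := ⟨i, φ, insert i T, some p⟩

/-- `Closed S par B`: the branch `B` (a list of nodes, the newest first) can be extended by
the rules for truth-trees to a finite tree every branch `B'` of which has a crash-pair `z`,
`z'` with `par B' z z'`. The recursive rule may use the arrow formulas in `S`. -/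
inductive Closed (S : Set Fm) (par : List Node → Node → Node → Prop) : List Node → Prop
  | crash {B : List Node} (z z' : Node) (ζ : Fm) (hz : z ∈ B) (hz' : z' ∈ B)
      (h : z.fm = ζ) (h' : z'.fm = .neg ζ) (hp : par B z z') : Closed S par B
  | conj {B : List Node} (n : Node) (φ ψ : Fm) (i j : ℕ) (hn : n ∈ B)
      (h : n.fm = .and φ ψ) (hi : Fresh B i) (hj : Fresh B j) (hij : i ≠ j)
      (hc : Closed S par (plain j ψ n.tr :: plain i φ n.tr :: B)) : Closed S par B
  | ndisj {B : List Node} (n : Node) (φ ψ : Fm) (i j : ℕ) (hn : n ∈ B)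
      (h : n.fm = .neg (.or φ ψ)) (hi : Fresh B i) (hj : Fresh B j) (hij : i ≠ j)
      (hc : Closed S par (plain j (.neg ψ) n.tr :: plain i (.neg φ) n.tr :: B)) :
      Closed S par B
  | nneg {B : List Node} (n : Node) (φ : Fm) (i : ℕ) (hn : n ∈ B)
      (h : n.fm = .neg (.neg φ)) (hi : Fresh B i)
      (hc : Closed S par (plain i φ n.tr :: B)) : Closed S par B
  | nconj {B : List Node} (n : Node) (φ ψ : Fm) (i j : ℕ) (hn : n ∈ B)
      (h : n.fm = .neg (.and φ ψ)) (hi : Fresh B i) (hj : Fresh B j)
      (hc : Closed S par (plain i (.neg φ) n.tr :: B))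
      (hc' : Closed S par (plain j (.neg ψ) n.tr :: B)) : Closed S par B
  | disj {B : List Node} (n : Node) (φ ψ : Fm) (i j : ℕ) (hn : n ∈ B)
      (h : n.fm = .or φ ψ) (hi : Fresh B i) (hj : Fresh B j)
      (hc : Closed S par (plain i φ n.tr :: B))
      (hc' : Closed S par (plain j ψ n.tr :: B)) : Closed S par B
  | mp {B : List Node} (n m : Node) (φ ψ : Fm) (i : ℕ) (hn : n ∈ B) (hm : m ∈ B)
      (h : n.fm = φ) (h' : m.fm = .imp φ ψ) (hi : Fresh B i)
      (hc : Closed S par (plain i ψ (n.tr ∪ m.tr) :: B)) : Closed S par B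
  | counter {B : List Node} (n : Node) (φ ψ : Fm) (i j : ℕ) (hn : n ∈ B)
      (h : n.fm = .neg (.imp φ ψ)) (hi : Fresh B i) (hj : Fresh B j) (hij : i ≠ j)
      (hc : Closed S par (crit j (.neg ψ) n.tr i :: crit i φ n.tr j :: B)) :
      Closed S par B
  | recur {B : List Node} (n : Node) (φ ψ : Fm) (i : ℕ) (hn : n ∈ B)
      (h : n.fm = φ) (hS : Fm.imp φ ψ ∈ S) (hi : Fresh B i)
      (hc : Closed S par (plain i ψ n.tr :: B)) : Closed S par B

/-- The root of a truth-tree for `χ`. -/
def root (χ : Fm) : Node := ⟨0, .neg χ, {0}, none⟩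

/-- The union of the traces of a pair of nodes. -/
def pairTrace (z z' : Node) : Set ℕ := z.tr ∪ z'.tr

/-- Parity of a pair of nodes on the branch `B`: a critical node of `B` is in the trace of
the pair exactly when its partner is. -/
def Parity (B : List Node) (z z' : Node) : Prop :=
  ∀ c ∈ B, ∀ p, c.partner = some p → (c.id ∈ pairTrace z z' ↔ p ∈ pairTrace z z')

/-- `χ` has a truth-tree satisfying `par` whose recursive-rule steps use arrow formulas
in `S`. -/
def HasTree (S : Set Fm) (par : List Node → Node → Node → Prop) (χ : Fm) : Prop :=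
  Closed S par [root χ]

/-- The least set containing every formula which has a tree satisfying `par` whose
recursive-rule steps use arrow formulas from the set. -/
def AccepOf (par : List Node → Node → Node → Prop) : Set Fm :=
  {χ | ∀ S : Set Fm, (∀ ψ, HasTree S par ψ → ψ ∈ S) → χ ∈ S}

/-- The acceptable formulas. -/
def A : Set Fm := AccepOf Parity

end Pool.Agent.R599.TT
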