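import Pool.Agent.R599.TT.Defs

/-!
# A labelled calculus equivalent to truth-trees
-/

namespace Pool.Agent.R599.TT

/-- A label: a set of signed indices of critical pairs. -/
abbrev Label := Set (ℕ × Bool)

/-- Labelled calculus. -/
inductive LC (S : Set Fm) (lf : Finset ℕ → Label → Prop) :
    Finset ℕ → Set (Fm × Label) → Prop
  | leaf {C Γ} (ζ : Fm) (X Y : Label) (h : (ζ, X) ∈ Γ) (h' : (Fm.neg ζ, Y) ∈ Γ)
      (hl : lf C (X ∪ Y)) : LC S lf C Γ
  | conj {C Γ} (φ ψ : Fm) (X : Label) (h : (Fm.and φ ψ, X) ∈ Γ)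
      (hc : LC S lf C (insert (ψ, X) (insert (φ, X) Γ))) : LC S lf C Γ
  | ndisj {C Γ} (φ ψ : Fm) (X : Label) (h : (Fm.neg (Fm.or φ ψ), X) ∈ Γ)
      (hc : LC S lf C (insert (Fm.neg ψ, X) (insert (Fm.neg φ, X) Γ))) : LC S lf C Γ
  | nneg {C Γ} (φ : Fm) (X : Label) (h : (Fm.neg (Fm.neg φ), X) ∈ Γ)
      (hc : LC S lf C (insert (φ, X) Γ)) : LC S lf C Γ
  | nconj {C Γ} (φ ψ : Fm) (X : Label) (h : (Fm.neg (Fm.and φ ψ), X) ∈ Γ)
      (hc : LC S lf C (insert (Fm.neg φ, X) Γ))
      (hc' : LC S lf C (insert (Fm.neg ψ, X) Γ)) : LC S lf C Γ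
  | disj {C Γ} (φ ψ : Fm) (X : Label) (h : (Fm.or φ ψ, X) ∈ Γ)
      (hc : LC S lf C (insert (φ, X) Γ))
      (hc' : LC S lf C (insert (ψ, X) Γ)) : LC S lf C Γ
  | mp {C Γ} (φ ψ : Fm) (X Y : Label) (h : (φ, X) ∈ Γ) (h' : (Fm.imp φ ψ, Y) ∈ Γ)
      (hc : LC S lf C (insert (ψ, X ∪ Y) Γ)) : LC S lf C Γ
  | counter {C Γ} (φ ψ : Fm) (X : Label) (k : ℕ) (h : (Fm.neg (Fm.imp φ ψ), X) ∈ Γ)
      (hk : k ∉ C)
      (hc : LC S lf (insert k C)
        (insert (Fm.neg ψ, insert (k, false) X) (insert (φ, insert (k, true) X) Γ))) :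
      LC S lf C Γ
  | recur {C Γ} (φ ψ : Fm) (X : Label) (h : (φ, X) ∈ Γ) (hS : Fm.imp φ ψ ∈ S)
      (hc : LC S lf C (insert (ψ, X) Γ)) : LC S lf C Γ

theorem LC.mono {S S' : Set Fm} {lf lf' : Finset ℕ → Label → Prop} (hS : S ⊆ S')
    (hlf : ∀ C C' L, C' ⊆ C → lf C L → lf' C' L) :
    ∀ {C Γ}, LC S lf C Γ → ∀ {C' Γ'}, C' ⊆ C → Γ ⊆ Γ' → LC S' lf' C' Γ' := by
  intro C Γ h
  induction h with
  | leaf ζ X Y h h' hl => intro C' Γ' hC hΓ; exact .leaf ζ X Y (hΓ h) (hΓ h') (hlf _ _ _ hC hl)
  | conj φ ψ X h _ ih =>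
    intro C' Γ' hC hΓ
    exact .conj φ ψ X (hΓ h) (ih hC (Set.insert_subset_insert (Set.insert_subset_insert hΓ)))
  | ndisj φ ψ X h _ ih =>
    intro C' Γ' hC hΓ
    exact .ndisj φ ψ X (hΓ h) (ih hC (Set.insert_subset_insert (Set.insert_subset_insert hΓ)))
  | nneg φ X h _ ih =>
    intro C' Γ' hC hΓ
    exact .nneg φ X (hΓ h) (ih hC (Set.insert_subset_insert hΓ))
  | nconj φ ψ X h _ _ ih ih' =>
    intro C' Γ' hC hΓ
    exact .nconj φ ψ X (hΓ h) (ih hC (Set.insert_subset_insert hΓ))
      (ih' hC (Set.insert_subset_insert hΓ))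
  | disj φ ψ X h _ _ ih ih' =>
    intro C' Γ' hC hΓ
    exact .disj φ ψ X (hΓ h) (ih hC (Set.insert_subset_insert hΓ))
      (ih' hC (Set.insert_subset_insert hΓ))
  | mp φ ψ X Y h h' _ ih =>
    intro C' Γ' hC hΓ
    exact .mp φ ψ X Y (hΓ h) (hΓ h') (ih hC (Set.insert_subset_insert hΓ))
  | counter φ ψ X k h hk _ ih =>
    intro C' Γ' hC hΓ
    exact .counter φ ψ X k (hΓ h) (fun hk' => hk (hC hk'))
      (ih (Finset.insert_subset_insert _ hC)
        (Set.insert_subset_insert (Set.insert_subset_insert hΓ)))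
  | recur φ ψ X h hSm _ ih =>
    intro C' Γ' hC hΓ
    exact .recur φ ψ X (hΓ h) (hS hSm) (ih hC (Set.insert_subset_insert hΓ))

/-- The identifiers used on a branch. -/
def ids (B : List Node) : Set ℕ := {i | ∃ n ∈ B, n.id = i}

theorem Fresh.not_mem {B : List Node} {i : ℕ} (h : Fresh B i) : i ∉ ids B := by
  rintro ⟨n, hn, rfl⟩
  exact h n hn rfl

/-- The critical nodes on the branch `B` are the `f k b` for `k ∈ C`. -/
structure Cor (B : List Node) (C : Finset ℕ) (f : ℕ → Bool → ℕ) : Prop where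
  crit : ∀ c ∈ B, ∀ p, c.partner = some p → ∃ k ∈ C, ∃ b, c.id = f k b ∧ p = f k (!b)
  mem : ∀ k ∈ C, ∀ b, ∃ c ∈ B, c.id = f k b ∧ c.partner = some (f k (!b))
  tr : ∀ n ∈ B, n.tr ⊆ ids B

/-- The label of a node. -/
def lab (C : Finset ℕ) (f : ℕ → Bool → ℕ) (T : Set ℕ) : Label :=
  {t | t.1 ∈ C ∧ f t.1 t.2 ∈ T}

theorem lab_union (C : Finset ℕ) (f : ℕ → Bool → ℕ) (T T' : Set ℕ) :
    lab C f (T ∪ T') = lab C f T ∪ lab C f T' := by
  ext t
  simp only [lab, Set.mem_ofPred_eq, Set.mem_union]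
  tauto

/-- `par` and `lf` express the same condition. -/
def Match (par : List Node → Node → Node → Prop) (lf : Finset ℕ → Label → Prop) : Prop :=
  ∀ B C f z z', Cor B C f → z ∈ B → z' ∈ B →
    (par B z z' ↔ lf C (lab C f z.tr ∪ lab C f z'.tr))

theorem Cor.lab_fresh {B : List Node} {C : Finset ℕ} {f : ℕ → Bool → ℕ} (h : Cor B C f)
    {i : ℕ} (hi : Fresh B i) (T : Set ℕ) : lab C f (insert i T) = lab C f T := by
  ext ⟨k, b⟩
  simp only [lab, Set.mem_ofPred_eq, Set.mem_insert_iff]
  constructor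
  · rintro ⟨hk, h1 | h1⟩
    · obtain ⟨c, hc, hid, -⟩ := h.mem k hk b
      exact absurd (hid.trans h1) (hi c hc)
    · exact ⟨hk, h1⟩
  · rintro ⟨hk, h1⟩
    exact ⟨hk, Or.inr h1⟩

theorem Cor.plain {B : List Node} {C : Finset ℕ} {f : ℕ → Bool → ℕ} (h : Cor B C f)
    {i : ℕ} {φ : Fm} {T : Set ℕ} (hT : T ⊆ ids B) : Cor (plain i φ T :: B) C f where
  crit := by
    intro c hc p hp
    rcases List.mem_cons.1 hc with rfl | hc
    · simp [TT.plain] at hp
    · exact h.crit c hc p hp
  mem := by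
    intro k hk b
    obtain ⟨c, hc, h1⟩ := h.mem k hk b
    exact ⟨c, List.mem_cons_of_mem _ hc, h1⟩
  tr := by
    intro n hn
    rcases List.mem_cons.1 hn with rfl | hn
    · intro x hx
      rcases hx with rfl | hx
      · exact ⟨_, List.mem_cons_self, rfl⟩
      · obtain ⟨m, hm, h1⟩ := hT hx
        exact ⟨m, List.mem_cons_of_mem _ hm, h1⟩
    · intro x hx
      obtain ⟨m, hm, h1⟩ := h.tr n hn hx
      exact ⟨m, List.mem_cons_of_mem _ hm, h1⟩

theorem ids_cons_subset (n : Node) (B : List Node) : ids B ⊆ ids (n :: B) := by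
  rintro x ⟨m, hm, h1⟩
  exact ⟨m, List.mem_cons_of_mem _ hm, h1⟩

theorem fresh_cons {B : List Node} {n : Node} {i : ℕ} (h : Fresh B i) (hn : n.id ≠ i) :
    Fresh (n :: B) i := by
  intro m hm
  rcases List.mem_cons.1 hm with rfl | hm
  · exact hn
  · exact h m hm

/-- Adding a critical pair with a new index. -/
theorem Cor.counter {B : List Node} {C : Finset ℕ} {f f' : ℕ → Bool → ℕ} (h : Cor B C f)
    {k i j : ℕ} {φ ψ : Fm} {T : Set ℕ} (hT : T ⊆ ids B)
    (hf : ∀ k' ∈ C, ∀ b, f' k' b = f k' b) (hki : f' k true = i) (hkj : f' k false = j) :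
    Cor (TT.crit j ψ T i :: TT.crit i φ T j :: B) (insert k C) f' where
  crit := by
    intro c hc p hp
    rcases List.mem_cons.1 hc with rfl | hc
    · simp only [TT.crit, Option.some.injEq] at hp
      exact ⟨k, Finset.mem_insert_self _ _, false, by simp [TT.crit, hkj], by simp [← hp, hki]⟩
    rcases List.mem_cons.1 hc with rfl | hc
    · simp only [TT.crit, Option.some.injEq] at hp
      exact ⟨k, Finset.mem_insert_self _ _, true, by simp [TT.crit, hki], by simp [← hp, hkj]⟩
    · obtain ⟨k', hk', b, h1, h2⟩ := h.crit c hc p hp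
      exact ⟨k', Finset.mem_insert_of_mem hk', b, by rw [hf k' hk', h1], by rw [hf k' hk', h2]⟩
  mem := by
    intro k' hk' b
    by_cases hkk : k' ∈ C
    · obtain ⟨c, hc, h1, h2⟩ := h.mem k' hkk b
      exact ⟨c, List.mem_cons_of_mem _ (List.mem_cons_of_mem _ hc), by rw [hf k' hkk, h1],
        by rw [hf k' hkk, h2]⟩
    · rcases Finset.mem_insert.1 hk' with rfl | hk'
      · cases b
        · exact ⟨_, List.mem_cons_self, by simp [TT.crit, hkj], by simp [TT.crit, hki]⟩
        · exact ⟨_, List.mem_cons_of_mem _ List.mem_cons_self, by simp [TT.crit, hki],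
            by simp [TT.crit, hkj]⟩
      · exact absurd hk' hkk
  tr := by
    intro n hn
    rcases List.mem_cons.1 hn with rfl | hn
    · intro x hx
      rcases hx with rfl | hx
      · exact ⟨_, List.mem_cons_self, rfl⟩
      · exact ids_cons_subset _ _ (ids_cons_subset _ _ (hT hx))
    rcases List.mem_cons.1 hn with rfl | hn
    · intro x hx
      rcases hx with rfl | hx
      · exact ⟨_, List.mem_cons_of_mem _ List.mem_cons_self, rfl⟩
      · exact ids_cons_subset _ _ (ids_cons_subset _ _ (hT hx))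
    · intro x hx
      exact ids_cons_subset _ _ (ids_cons_subset _ _ (h.tr n hn hx))

theorem lab_old {B : List Node} {C : Finset ℕ} {f f' : ℕ → Bool → ℕ}
    {k i j : ℕ} {T : Set ℕ} (hT : T ⊆ ids B) (hi : Fresh B i) (hj : Fresh B j)
    (hf : ∀ k' ∈ C, ∀ b, f' k' b = f k' b) (hki : f' k true = i) (hkj : f' k false = j)
    (hk : k ∉ C) : lab (insert k C) f' T = lab C f T := by
  ext ⟨k', b⟩
  simp only [lab, Set.mem_ofPred_eq, Finset.mem_insert]
  constructor
  · rintro ⟨rfl | hk', h1⟩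
    · exfalso
      cases b
      · rw [hkj] at h1; exact hj.not_mem (hT h1)
      · rw [hki] at h1; exact hi.not_mem (hT h1)
    · exact ⟨hk', by rwa [← hf k' hk']⟩
  · rintro ⟨hk', h1⟩
    exact ⟨Or.inr hk', by rwa [hf k' hk']⟩

theorem lab_newT {B : List Node} {C : Finset ℕ} {f f' : ℕ → Bool → ℕ} (h : Cor B C f)
    {k i j : ℕ} {T : Set ℕ} (hT : T ⊆ ids B) (hi : Fresh B i) (hj : Fresh B j) (hij : i ≠ j)
    (hf : ∀ k' ∈ C, ∀ b, f' k' b = f k' b) (hki : f' k true = i) (hkj : f' k false = j)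
    (hk : k ∉ C) : lab (insert k C) f' (insert i T) = insert (k, true) (lab C f T) := by
  ext ⟨k', b⟩
  simp only [lab, Set.mem_ofPred_eq, Finset.mem_insert, Set.mem_insert_iff, Prod.mk.injEq]
  constructor
  · rintro ⟨rfl | hk', h1⟩
    · cases b
      · rw [hkj] at h1
        rcases h1 with h1 | h1
        · exact absurd h1.symm hij
        · exact absurd (hT h1) hj.not_mem
      · exact Or.inl ⟨rfl, rfl⟩
    · rcases h1 with h1 | h1
      · exfalso
        obtain ⟨c, hc, hid, -⟩ := h.mem k' hk' b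
        rw [hf k' hk'] at h1
        exact hi c hc (hid.trans h1)
      · exact Or.inr ⟨hk', by rwa [← hf k' hk']⟩
  · rintro (⟨rfl, rfl⟩ | ⟨hk', h1⟩)
    · exact ⟨Or.inl rfl, Or.inl hki⟩
    · exact ⟨Or.inr hk', Or.inr (by rwa [hf k' hk'])⟩

theorem lab_newF {B : List Node} {C : Finset ℕ} {f f' : ℕ → Bool → ℕ} (h : Cor B C f)
    {k i j : ℕ} {T : Set ℕ} (hT : T ⊆ ids B) (hi : Fresh B i) (hj : Fresh B j) (hij : i ≠ j)
    (hf : ∀ k' ∈ C, ∀ b, f' k' b = f k' b) (hki : f' k true = i) (hkj : f' k false = j)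
    (hk : k ∉ C) : lab (insert k C) f' (insert j T) = insert (k, false) (lab C f T) := by
  ext ⟨k', b⟩
  simp only [lab, Set.mem_ofPred_eq, Finset.mem_insert, Set.mem_insert_iff, Prod.mk.injEq]
  constructor
  · rintro ⟨rfl | hk', h1⟩
    · cases b
      · exact Or.inl ⟨rfl, rfl⟩
      · rw [hki] at h1
        rcases h1 with h1 | h1
        · exact absurd h1 hij
        · exact absurd (hT h1) hi.not_mem
    · rcases h1 with h1 | h1
      · exfalso
        obtain ⟨c, hc, hid, -⟩ := h.mem k' hk' b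
        rw [hf k' hk'] at h1
        exact hj c hc (hid.trans h1)
      · exact Or.inr ⟨hk', by rwa [← hf k' hk']⟩
  · rintro (⟨rfl, rfl⟩ | ⟨hk', h1⟩)
    · exact ⟨Or.inl rfl, Or.inl hkj⟩
    · exact ⟨Or.inr hk', Or.inr (by rwa [hf k' hk'])⟩

/-- From trees to the labelled calculus. -/
theorem toLC {S : Set Fm} {par : List Node → Node → Node → Prop}
    {lf : Finset ℕ → Label → Prop} (hM : Match par lf) {B : List Node}
    (h : Closed S par B) : ∀ (C : Finset ℕ) (f : ℕ → Bool → ℕ) (Γ : Set (Fm × Label)),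
      Cor B C f → (∀ n ∈ B, (n.fm, lab C f n.tr) ∈ Γ) → LC S lf C Γ := by
  induction h with
  | crash z z' ζ hz hz' h h' hp =>
    intro C f Γ hC hΓ
    have h1 := hΓ z hz
    have h2 := hΓ z' hz'
    rw [h] at h1
    rw [h'] at h2
    exact .leaf ζ _ _ h1 h2 ((hM _ C f z z' hC hz hz').1 hp)
  | @conj B n φ ψ i j hn h hi hj hij _ ih =>
    intro C f Γ hC hΓ
    have h1 := hΓ n hn
    rw [h] at h1
    have hT := hC.tr n hn
    have hC1 : Cor (plain i φ n.tr :: B) C f := hC.plain hT
    refine .conj φ ψ _ h1 (ih C f _ (hC1.plain (hT.trans (ids_cons_subset _ _))) ?_)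
    intro m hm
    rcases List.mem_cons.1 hm with rfl | hm
    · left
      simp only [plain]
      rw [hC.lab_fresh hj]
    rcases List.mem_cons.1 hm with rfl | hm
    · right; left
      simp only [plain]
      rw [hC.lab_fresh hi]
    · right; right; exact hΓ m hm
  | @ndisj B n φ ψ i j hn h hi hj hij _ ih =>
    intro C f Γ hC hΓ
    have h1 := hΓ n hn
    rw [h] at h1
    have hT := hC.tr n hn
    have hC1 : Cor (plain i (.neg φ) n.tr :: B) C f := hC.plain hT
    refine .ndisj φ ψ _ h1 (ih C f _ (hC1.plain (hT.trans (ids_cons_subset _ _))) ?_)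
    intro m hm
    rcases List.mem_cons.1 hm with rfl | hm
    · left
      simp only [plain]
      rw [hC.lab_fresh hj]
    rcases List.mem_cons.1 hm with rfl | hm
    · right; left
      simp only [plain]
      rw [hC.lab_fresh hi]
    · right; right; exact hΓ m hm
  | @nneg B n φ i hn h hi _ ih =>
    intro C f Γ hC hΓ
    have h1 := hΓ n hn
    rw [h] at h1
    refine .nneg φ _ h1 (ih C f _ (hC.plain (hC.tr n hn)) ?_)
    intro m hm
    rcases List.mem_cons.1 hm with rfl | hm
    · left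
      simp only [plain]
      rw [hC.lab_fresh hi]
    · right; exact hΓ m hm
  | @nconj B n φ ψ i j hn h hi hj _ _ ih ih' =>
    intro C f Γ hC hΓ
    have h1 := hΓ n hn
    rw [h] at h1
    refine .nconj φ ψ _ h1 (ih C f _ (hC.plain (hC.tr n hn)) ?_)
      (ih' C f _ (hC.plain (hC.tr n hn)) ?_)
    · intro m hm
      rcases List.mem_cons.1 hm with rfl | hm
      · left
        simp only [plain]
        rw [hC.lab_fresh hi]
      · right; exact hΓ m hm
    · intro m hm
      rcases List.mem_cons.1 hm with rfl | hm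
      · left
        simp only [plain]
        rw [hC.lab_fresh hj]
      · right; exact hΓ m hm
  | @disj B n φ ψ i j hn h hi hj _ _ ih ih' =>
    intro C f Γ hC hΓ
    have h1 := hΓ n hn
    rw [h] at h1
    refine .disj φ ψ _ h1 (ih C f _ (hC.plain (hC.tr n hn)) ?_)
      (ih' C f _ (hC.plain (hC.tr n hn)) ?_)
    · intro m hm
      rcases List.mem_cons.1 hm with rfl | hm
      · left
        simp only [plain]
        rw [hC.lab_fresh hi]
      · right; exact hΓ m hm
    · intro m hm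
      rcases List.mem_cons.1 hm with rfl | hm
      · left
        simp only [plain]
        rw [hC.lab_fresh hj]
      · right; exact hΓ m hm
  | @mp B n m φ ψ i hn hm h h' hi _ ih =>
    intro C f Γ hC hΓ
    have h1 := hΓ n hn
    rw [h] at h1
    have h2 := hΓ m hm
    rw [h'] at h2
    refine .mp φ ψ _ _ h1 h2 (ih C f _
      (hC.plain (Set.union_subset (hC.tr n hn) (hC.tr m hm))) ?_)
    intro m' hm'
    rcases List.mem_cons.1 hm' with rfl | hm'
    · left
      simp only [plain]
      rw [hC.lab_fresh hi, lab_union]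
    · right; exact hΓ m' hm'
  | @counter B n φ ψ i j hn h hi hj hij _ ih =>
    intro C f Γ hC hΓ
    have h1 := hΓ n hn
    rw [h] at h1
    obtain ⟨k, hk⟩ := Infinite.exists_notMem_finset C
    have hT := hC.tr n hn
    let f' : ℕ → Bool → ℕ := fun k' b => if k' = k then (if b then i else j) else f k' b
    have hf : ∀ k' ∈ C, ∀ b, f' k' b = f k' b := by
      intro k' hk' b
      have : k' ≠ k := fun h => hk (h ▸ hk')
      simp [f', this]
    have hki : f' k true = i := by simp [f']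
    have hkj : f' k false = j := by simp [f']
    refine .counter φ ψ _ k h1 hk (ih (insert k C) f' _ (hC.counter hT hf hki hkj) ?_)
    intro m hm
    rcases List.mem_cons.1 hm with rfl | hm
    · left
      simp only [crit]
      rw [lab_newF hC hT hi hj hij hf hki hkj hk]
    rcases List.mem_cons.1 hm with rfl | hm
    · right; left
      simp only [crit]
      rw [lab_newT hC hT hi hj hij hf hki hkj hk]
    · right; right
      rw [lab_old (hC.tr m hm) hi hj hf hki hkj hk]
      exact hΓ m hm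
  | @recur B n φ ψ i hn h hS hi _ ih =>
    intro C f Γ hC hΓ
    have h1 := hΓ n hn
    rw [h] at h1
    refine .recur φ ψ _ h1 hS (ih C f _ (hC.plain (hC.tr n hn)) ?_)
    intro m hm
    rcases List.mem_cons.1 hm with rfl | hm
    · left
      simp only [plain]
      rw [hC.lab_fresh hi]
    · right; exact hΓ m hm

/-- The identifiers of critical nodes used in the converse translation. -/
def cid (k : ℕ) (b : Bool) : ℕ := 4 * k + (if b then 1 else 3)

theorem exists_bound (B : List Node) : ∃ m, ∀ n ∈ B, n.id < m := by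
  induction B with
  | nil => exact ⟨0, by simp⟩
  | cons n B ih =>
    obtain ⟨m, hm⟩ := ih
    refine ⟨max m (n.id + 1), ?_⟩
    intro n' hn'
    rcases List.mem_cons.1 hn' with rfl | hn'
    · omega
    · have := hm n' hn'; omega

/-- The odd identifiers on `B` are those of critical nodes with index in `C`. -/
def OddOK (B : List Node) (C : Finset ℕ) : Prop :=
  ∀ n ∈ B, n.id % 2 = 1 → ∃ k ∈ C, ∃ b, n.id = cid k b

theorem OddOK.plain {B : List Node} {C : Finset ℕ} (h : OddOK B C) {i : ℕ} {φ : Fm}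
    {T : Set ℕ} (hi : i % 2 = 0) : OddOK (plain i φ T :: B) C := by
  intro n hn h1
  rcases List.mem_cons.1 hn with rfl | hn
  · simp only [TT.plain] at h1; omega
  · exact h n hn h1

/-- From the labelled calculus to trees. -/
theorem ofLC {S : Set Fm} {par : List Node → Node → Node → Prop}
    {lf : Finset ℕ → Label → Prop} (hM : Match par lf) {C : Finset ℕ}
    {Γ : Set (Fm × Label)} (h : LC S lf C Γ) : ∀ (B : List Node), Cor B C cid → OddOK B C →
      (∀ t ∈ Γ, ∃ n ∈ B, n.fm = t.1 ∧ lab C cid n.tr = t.2) → Closed S par B := by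
  induction h with
  | @leaf C Γ ζ X Y h h' hl =>
    intro B hB hO hΓ
    obtain ⟨n, hn, h1, h2⟩ := hΓ _ h
    obtain ⟨n', hn', h1', h2'⟩ := hΓ _ h'
    simp only at h1 h2 h1' h2'
    refine .crash n n' ζ hn hn' h1 h1' ((hM B _ cid n n' hB hn hn').2 ?_)
    rw [h2, h2']
    exact hl
  | @conj C Γ φ ψ X h _ ih =>
    intro B hB hO hΓ
    obtain ⟨n, hn, h1, h2⟩ := hΓ _ h
    simp only at h1 h2
    obtain ⟨m, hm⟩ := exists_bound B
    have hi : Fresh B (2 * m) := fun n' hn' => by have := hm n' hn'; omega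
    have hj : Fresh B (2 * m + 2) := fun n' hn' => by have := hm n' hn'; omega
    have hT := hB.tr n hn
    have hB1 : Cor (plain (2 * m) φ n.tr :: B) C cid := hB.plain hT
    refine .conj n φ ψ (2 * m) (2 * m + 2) hn h1 hi hj (by omega)
      (ih _ (hB1.plain (hT.trans (ids_cons_subset _ _)))
        ((hO.plain (by omega)).plain (by omega)) ?_)
    intro t ht
    rcases ht with rfl | rfl | ht
    · exact ⟨_, List.mem_cons_self, rfl, by simp only [plain]; rw [hB.lab_fresh hj, h2]⟩
    · exact ⟨_, List.mem_cons_of_mem _ List.mem_cons_self, rfl,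
        by simp only [plain]; rw [hB.lab_fresh hi, h2]⟩
    · obtain ⟨n', hn', h3⟩ := hΓ t ht
      exact ⟨n', List.mem_cons_of_mem _ (List.mem_cons_of_mem _ hn'), h3⟩
  | @ndisj C Γ φ ψ X h _ ih =>
    intro B hB hO hΓ
    obtain ⟨n, hn, h1, h2⟩ := hΓ _ h
    simp only at h1 h2
    obtain ⟨m, hm⟩ := exists_bound B
    have hi : Fresh B (2 * m) := fun n' hn' => by have := hm n' hn'; omega
    have hj : Fresh B (2 * m + 2) := fun n' hn' => by have := hm n' hn'; omega
    have hT := hB.tr n hn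
    have hB1 : Cor (plain (2 * m) (.neg φ) n.tr :: B) C cid := hB.plain hT
    refine .ndisj n φ ψ (2 * m) (2 * m + 2) hn h1 hi hj (by omega)
      (ih _ (hB1.plain (hT.trans (ids_cons_subset _ _)))
        ((hO.plain (by omega)).plain (by omega)) ?_)
    intro t ht
    rcases ht with rfl | rfl | ht
    · exact ⟨_, List.mem_cons_self, rfl, by simp only [plain]; rw [hB.lab_fresh hj, h2]⟩
    · exact ⟨_, List.mem_cons_of_mem _ List.mem_cons_self, rfl,
        by simp only [plain]; rw [hB.lab_fresh hi, h2]⟩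
    · obtain ⟨n', hn', h3⟩ := hΓ t ht
      exact ⟨n', List.mem_cons_of_mem _ (List.mem_cons_of_mem _ hn'), h3⟩
  | @nneg C Γ φ X h _ ih =>
    intro B hB hO hΓ
    obtain ⟨n, hn, h1, h2⟩ := hΓ _ h
    simp only at h1 h2
    obtain ⟨m, hm⟩ := exists_bound B
    have hi : Fresh B (2 * m) := fun n' hn' => by have := hm n' hn'; omega
    have hT := hB.tr n hn
    refine .nneg n φ (2 * m) hn h1 hi (ih _ (hB.plain hT) (hO.plain (by omega)) ?_)
    intro t ht
    rcases ht with rfl | ht
    · exact ⟨_, List.mem_cons_self, rfl, by simp only [plain]; rw [hB.lab_fresh hi, h2]⟩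
    · obtain ⟨n', hn', h3⟩ := hΓ t ht
      exact ⟨n', List.mem_cons_of_mem _ hn', h3⟩
  | @nconj C Γ φ ψ X h _ _ ih ih' =>
    intro B hB hO hΓ
    obtain ⟨n, hn, h1, h2⟩ := hΓ _ h
    simp only at h1 h2
    obtain ⟨m, hm⟩ := exists_bound B
    have hi : Fresh B (2 * m) := fun n' hn' => by have := hm n' hn'; omega
    have hT := hB.tr n hn
    refine .nconj n φ ψ (2 * m) (2 * m) hn h1 hi hi
      (ih _ (hB.plain hT) (hO.plain (by omega)) ?_)
      (ih' _ (hB.plain hT) (hO.plain (by omega)) ?_)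
    · intro t ht
      rcases ht with rfl | ht
      · exact ⟨_, List.mem_cons_self, rfl, by simp only [plain]; rw [hB.lab_fresh hi, h2]⟩
      · obtain ⟨n', hn', h3⟩ := hΓ t ht
        exact ⟨n', List.mem_cons_of_mem _ hn', h3⟩
    · intro t ht
      rcases ht with rfl | ht
      · exact ⟨_, List.mem_cons_self, rfl, by simp only [plain]; rw [hB.lab_fresh hi, h2]⟩
      · obtain ⟨n', hn', h3⟩ := hΓ t ht
        exact ⟨n', List.mem_cons_of_mem _ hn', h3⟩
  | @disj C Γ φ ψ X h _ _ ih ih' =>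
    intro B hB hO hΓ
    obtain ⟨n, hn, h1, h2⟩ := hΓ _ h
    simp only at h1 h2
    obtain ⟨m, hm⟩ := exists_bound B
    have hi : Fresh B (2 * m) := fun n' hn' => by have := hm n' hn'; omega
    have hT := hB.tr n hn
    refine .disj n φ ψ (2 * m) (2 * m) hn h1 hi hi
      (ih _ (hB.plain hT) (hO.plain (by omega)) ?_)
      (ih' _ (hB.plain hT) (hO.plain (by omega)) ?_)
    · intro t ht
      rcases ht with rfl | ht
      · exact ⟨_, List.mem_cons_self, rfl, by simp only [plain]; rw [hB.lab_fresh hi, h2]⟩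
      · obtain ⟨n', hn', h3⟩ := hΓ t ht
        exact ⟨n', List.mem_cons_of_mem _ hn', h3⟩
    · intro t ht
      rcases ht with rfl | ht
      · exact ⟨_, List.mem_cons_self, rfl, by simp only [plain]; rw [hB.lab_fresh hi, h2]⟩
      · obtain ⟨n', hn', h3⟩ := hΓ t ht
        exact ⟨n', List.mem_cons_of_mem _ hn', h3⟩
  | @mp C Γ φ ψ X Y h h' _ ih =>
    intro B hB hO hΓ
    obtain ⟨n, hn, h1, h2⟩ := hΓ _ h
    obtain ⟨n', hn', h1', h2'⟩ := hΓ _ h'
    simp only at h1 h2 h1' h2'
    obtain ⟨m, hm⟩ := exists_bound B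
    have hi : Fresh B (2 * m) := fun n' hn' => by have := hm n' hn'; omega
    refine .mp n n' φ ψ (2 * m) hn hn' h1 h1' hi
      (ih _ (hB.plain (Set.union_subset (hB.tr n hn) (hB.tr n' hn')))
        (hO.plain (by omega)) ?_)
    intro t ht
    rcases ht with rfl | ht
    · exact ⟨_, List.mem_cons_self, rfl,
        by simp only [plain]; rw [hB.lab_fresh hi, lab_union, h2, h2']⟩
    · obtain ⟨n', hn', h3⟩ := hΓ t ht
      exact ⟨n', List.mem_cons_of_mem _ hn', h3⟩
  | @counter C Γ φ ψ X k h hk _ ih =>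
    intro B hB hO hΓ
    obtain ⟨n, hn, h1, h2⟩ := hΓ _ h
    simp only at h1 h2
    have key : ∀ b, Fresh B (cid k b) := by
      intro b n' hn' hid
      have hodd : n'.id % 2 = 1 := by
        rw [hid]; unfold cid; split <;> omega
      obtain ⟨k', hk', b', h3⟩ := hO n' hn' hodd
      have : k = k' := by
        rw [hid] at h3; unfold cid at h3; split at h3 <;> split at h3 <;> omega
      exact hk (this ▸ hk')
    have hi := key true
    have hj := key false
    have hij : cid k true ≠ cid k false := by simp [cid]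
    have hT := hB.tr n hn
    have hB' : Cor (crit (cid k false) (.neg ψ) n.tr (cid k true) ::
        crit (cid k true) φ n.tr (cid k false) :: B) (insert k C) cid :=
      hB.counter hT (fun _ _ _ => rfl) rfl rfl
    refine .counter n φ ψ (cid k true) (cid k false) hn h1 hi hj hij (ih _ hB' ?_ ?_)
    · intro n' hn' h3
      rcases List.mem_cons.1 hn' with rfl | hn'
      · exact ⟨k, Finset.mem_insert_self _ _, false, rfl⟩
      rcases List.mem_cons.1 hn' with rfl | hn'
      · exact ⟨k, Finset.mem_insert_self _ _, true, rfl⟩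
      · obtain ⟨k', hk', b', h4⟩ := hO n' hn' h3
        exact ⟨k', Finset.mem_insert_of_mem hk', b', h4⟩
    · intro t ht
      rcases ht with rfl | rfl | ht
      · refine ⟨_, List.mem_cons_self, rfl, ?_⟩
        simp only [crit]
        rw [lab_newF hB hT hi hj hij (fun _ _ _ => rfl) rfl rfl hk, h2]
      · refine ⟨_, List.mem_cons_of_mem _ List.mem_cons_self, rfl, ?_⟩
        simp only [crit]
        rw [lab_newT hB hT hi hj hij (fun _ _ _ => rfl) rfl rfl hk, h2]
      · obtain ⟨n', hn', h3, h4⟩ := hΓ t ht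
        refine ⟨n', List.mem_cons_of_mem _ (List.mem_cons_of_mem _ hn'), h3, ?_⟩
        rw [lab_old (hB.tr n' hn') hi hj (fun _ _ _ => rfl) rfl rfl hk, h4]
  | @recur C Γ φ ψ X h hS _ ih =>
    intro B hB hO hΓ
    obtain ⟨n, hn, h1, h2⟩ := hΓ _ h
    simp only at h1 h2
    obtain ⟨m, hm⟩ := exists_bound B
    have hi : Fresh B (2 * m) := fun n' hn' => by have := hm n' hn'; omega
    have hT := hB.tr n hn
    refine .recur n φ ψ (2 * m) hn h1 hS hi (ih _ (hB.plain hT) (hO.plain (by omega)) ?_)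
    intro t ht
    rcases ht with rfl | ht
    · exact ⟨_, List.mem_cons_self, rfl, by simp only [plain]; rw [hB.lab_fresh hi, h2]⟩
    · obtain ⟨n', hn', h3⟩ := hΓ t ht
      exact ⟨n', List.mem_cons_of_mem _ hn', h3⟩

/-- Trees and the labelled calculus prove the same formulas. -/
theorem hasTree_iff {S : Set Fm} {par : List Node → Node → Node → Prop}
    {lf : Finset ℕ → Label → Prop} (hM : Match par lf) (χ : Fm) :
    HasTree S par χ ↔ LC S lf ∅ {(Fm.neg χ, ∅)} := by
  have hC : ∀ f, Cor [root χ] ∅ f := fun f =>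
    { crit := by
        intro c hc p hp
        rcases List.mem_singleton.1 hc with rfl
        simp [root] at hp
      mem := by intro k hk; simp at hk
      tr := by
        intro n hn
        rcases List.mem_singleton.1 hn with rfl
        rintro x rfl
        exact ⟨_, List.mem_singleton.2 rfl, rfl⟩ }
  have hl : ∀ f T, lab ∅ f T = ∅ := by
    intro f T
    ext t
    simp [lab]
  constructor
  · intro h
    refine toLC hM h ∅ (fun _ _ => 0) _ (hC _) ?_
    intro n hn
    rcases List.mem_singleton.1 hn with rfl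
    rw [hl]
    rfl
  · intro h
    refine ofLC hM h [root χ] (hC _) ?_ ?_
    · intro n hn h1
      rcases List.mem_singleton.1 hn with rfl
      simp [root] at h1
    · rintro t rfl
      exact ⟨root χ, List.mem_singleton.2 rfl, rfl, hl _ _⟩

/-- Balanced labels. -/
def Bal (L : Label) : Prop := ∀ k, (k, true) ∈ L ↔ (k, false) ∈ L

theorem match_parity : Match Parity (fun _ L => Bal L) := by
  intro B C f z z' hC hz hz'
  rw [← lab_union]
  constructor
  · intro h k
    by_cases hk : k ∈ C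
    · obtain ⟨c, hc, h1, h2⟩ := hC.mem k hk true
      have h3 := h c hc _ h2
      simp only [lab, Set.mem_ofPred_eq, hk, true_and]
      rw [h1] at h3
      exact h3
    · simp [lab, hk]
  · intro h c hc p hp
    obtain ⟨k, hk, b, h1, h2⟩ := hC.crit c hc p hp
    have h3 := h k
    simp only [lab, Set.mem_ofPred_eq, hk, true_and] at h3
    rw [h1, h2]
    cases b
    · exact h3.symm
    · exact h3

end Pool.Agent.R599.TT
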