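import Pool.Agent.R599.TT.Trans

/-!
# The translation preserves acceptability
-/

namespace Pool.Agent.R599.TT

/-- Assignments of values to labels. -/
structure GoodR (C : Finset ℕ) (F : Set ℕ) (R : Label → M5 → Bool → Prop) : Prop where
  emp : R ∅ .e false
  mul : ∀ {L v θ L' v' θ'}, R L v θ → R L' v' θ' → R (L ∪ L') (v.mul v') (θ || θ')
  sub : ∀ {L v θ}, R L v θ → ∀ p ∈ L, p.1 ∈ C
  bal : ∀ {L v θ}, R L v θ → Bal L → v.le .e = true ∧ ((∃ p ∈ L, p.1 ∈ F) → θ = true)

/-- Extension by a new critical pair. -/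
def extR (R : Label → M5 → Bool → Prop) (k : ℕ) (X : Label) (u : M5) (θu : Bool) (z : M5)
    (θz : Bool) : Label → M5 → Bool → Prop := fun L v θ =>
  ∃ L0 v0 θ0, ∃ pu pz : Bool, R L0 v0 θ0 ∧
    L = L0 ∪ ((if pu then insert (k, true) X else ∅) ∪
      (if pz then insert (k, false) X else ∅)) ∧
    v = v0.mul ((if pu then u else .e).mul (if pz then z else .e)) ∧
    θ = (θ0 || ((pu && θu) || (pz && θz)))

theorem extR_old {R : Label → M5 → Bool → Prop} {k : ℕ} {X : Label} {u : M5} {θu : Bool}
    {z : M5} {θz : Bool} {L v θ} (h : R L v θ) : extR R k X u θu z θz L v θ :=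
  ⟨L, v, θ, false, false, h, by simp, by simp [M5.mul_e], by simp⟩

theorem extR_true {R : Label → M5 → Bool → Prop} {k : ℕ} {X : Label} {u : M5} {θu : Bool}
    {z : M5} {θz : Bool} (h : R ∅ .e false) :
    extR R k X u θu z θz (insert (k, true) X) u θu :=
  ⟨∅, .e, false, true, false, h, by simp, by simp [M5.mul_e, M5.e_mul], by simp⟩

theorem extR_false {R : Label → M5 → Bool → Prop} {k : ℕ} {X : Label} {u : M5} {θu : Bool}
    {z : M5} {θz : Bool} (h : R ∅ .e false) :
    extR R k X u θu z θz (insert (k, false) X) z θz :=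
  ⟨∅, .e, false, false, true, h, by simp, by simp [M5.e_mul], by simp⟩

theorem if_union (b b' : Bool) (Y : Label) :
    (if b then Y else ∅) ∪ (if b' then Y else ∅) = if (b || b') then Y else ∅ := by
  cases b <;> cases b' <;> simp

theorem if_mul (b b' : Bool) (y : M5) :
    (if b then y else .e).mul (if b' then y else .e) = if (b || b') then y else .e := by
  cases b <;> cases b' <;> simp [M5.mul_e, M5.e_mul, M5.mul_self']

theorem mul6 : ∀ x y z x' y' z' : M5, (x.mul (y.mul z)).mul (x'.mul (y'.mul z')) =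
    (x.mul x').mul ((y.mul y').mul (z.mul z')) := by
  intro x y z x' y' z'
  have hc := M5.mul_comm'
  have ha := M5.mul_assoc'
  have lc : ∀ x y z : M5, x.mul (y.mul z) = y.mul (x.mul z) := by
    intro x y z
    rw [← ha, hc x y, ha]
  rw [ha, ha, ha, ha, lc z x', lc y x', lc z y']

theorem GoodR.ext {C : Finset ℕ} {F F' : Set ℕ} {R : Label → M5 → Bool → Prop}
    (h : GoodR C F R) {k : ℕ} {X : Label} {x u : M5} {θx θu : Bool} {z : M5} {θz : Bool}
    (hk : k ∉ C) (hX : R X x θx) (huz : (u.mul z).le x = true) (hF : F' ⊆ insert k F)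
    (h1 : k ∈ F' → (θu || θz) = true) (h2 : k ∉ F' → θx = false) :
    GoodR (insert k C) F' (extR R k X u θu z θz) where
  emp := extR_old h.emp
  mul := by
    rintro L v θ L' v' θ' ⟨L0, v0, θ0, pu, pz, hR, rfl, rfl, rfl⟩
      ⟨L0', v0', θ0', pu', pz', hR', rfl, rfl, rfl⟩
    refine ⟨L0 ∪ L0', v0.mul v0', θ0 || θ0', pu || pu', pz || pz', h.mul hR hR', ?_, ?_, ?_⟩
    · rw [← if_union, ← if_union]
      ext p
      simp only [Set.mem_union]
      tauto
    · rw [← if_mul, ← if_mul, mul6]
    · cases θ0 <;> cases θ0' <;> cases pu <;> cases pz <;> cases pu' <;> cases pz' <;>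
        cases θu <;> cases θz <;> rfl
  sub := by
    rintro L v θ ⟨L0, v0, θ0, pu, pz, hR, rfl, rfl, rfl⟩ p hp
    have hXC := h.sub hX
    rcases hp with hp | hp | hp
    · exact Finset.mem_insert_of_mem (h.sub hR p hp)
    · cases pu
      · simp at hp
      · rcases hp with rfl | hp
        · exact Finset.mem_insert_self _ _
        · exact Finset.mem_insert_of_mem (hXC p hp)
    · cases pz
      · simp at hp
      · rcases hp with rfl | hp
        · exact Finset.mem_insert_self _ _
        · exact Finset.mem_insert_of_mem (hXC p hp)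
  bal := by
    rintro L v θ ⟨L0, v0, θ0, pu, pz, hR, rfl, rfl, rfl⟩ hb
    have hXC : ∀ b, (k, b) ∉ X := fun b hb => hk (h.sub hX _ hb)
    have hLC : ∀ b, (k, b) ∉ L0 := fun b hb => hk (h.sub hR _ hb)
    have hpp : pu = pz := by
      have := hb k
      simp only [Set.mem_union] at this
      cases pu <;> cases pz <;> simp [hXC, hLC] at this ⊢
    subst hpp
    cases pu
    · simp only [Bool.false_eq_true, if_false, Set.union_empty, Bool.false_and, Bool.or_false,
        M5.mul_e] at hb ⊢
      obtain ⟨h3, h4⟩ := h.bal hR hb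
      refine ⟨h3, ?_⟩
      rintro ⟨p, hp, hpF⟩
      refine h4 ⟨p, hp, ?_⟩
      rcases hF hpF with hpk | hpF
      · exfalso
        exact hk (hpk ▸ h.sub hR p hp)
      · exact hpF
    · simp only [if_true, Bool.true_and] at hb ⊢
      have hb1 : Bal (L0 ∪ X) := by
        intro j
        by_cases hj : j = k
        · subst hj
          simp [hXC, hLC]
        · have := hb j
          simp only [Set.mem_union, Set.mem_insert_iff, Prod.mk.injEq, hj, false_and,
            false_or] at this ⊢
          tauto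
      obtain ⟨h3, h4⟩ := h.bal (h.mul hR hX) hb1
      refine ⟨M5.le_trans' _ _ _ (M5.le_mul _ _ _ huz) h3, ?_⟩
      rintro ⟨p, hp, hpF⟩
      by_cases hkF : k ∈ F'
      · simp [h1 hkF]
      · have hθx := h2 hkF
        subst hθx
        have hpk : p.1 ≠ k := fun h => hkF (h ▸ hpF)
        have hpF' : p.1 ∈ F := by
          rcases hF hpF with h | h
          · exact absurd h hpk
          · exact h
        have hpL : p ∈ L0 ∪ X := by
          rcases hp with hp | hp | hp
          · exact Or.inl hp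
          · rcases hp with rfl | hp
            · exact absurd rfl hpk
            · exact Or.inr hp
          · rcases hp with rfl | hp
            · exact absurd rfl hpk
            · exact Or.inr hp
        have := h4 ⟨p, hpL, hpF'⟩
        simp only [Bool.or_false] at this
        simp [this]

/-- The node with value `x` and label `X` is in the target. -/
def InT (Γ : Set (Fm × Label)) (x : E) (X : Label) : Prop := ∀ φ, x = .fm φ → (φ, X) ∈ Γ

theorem InT.mono {Γ Γ' : Set (Fm × Label)} {x : E} {X : Label} (h : InT Γ x X)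
    (hΓ : Γ ⊆ Γ') : InT Γ' x X := fun φ hφ => hΓ (h φ hφ)

/-- The invariant of a node. -/
def NodeOK (Q : Set ℕ) (F : Set ℕ) (R : Label → M5 → Bool → Prop) (Γ' : Set (Fm × Label))
    (η : Fm) (X : Label) : Prop :=
  ∃ v θ, R X v θ ∧ T Q η v ≠ .bot ∧ (θ = true → T Q η v = .top) ∧
    ((∀ p ∈ X, p.1 ∉ F) → InT Γ' (T Q η v) X)

theorem NodeOK.mono {Q F F' : Set ℕ} {R R' : Label → M5 → Bool → Prop}
    {Γ Γ' : Set (Fm × Label)} {η : Fm} {X : Label} (h : NodeOK Q F R Γ η X)
    (hF : F ⊆ F') (hR : ∀ {L v θ}, R L v θ → R' L v θ) (hΓ : Γ ⊆ Γ') :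
    NodeOK Q F' R' Γ' η X := by
  obtain ⟨v, θ, h1, h2, h3, h4⟩ := h
  exact ⟨v, θ, hR h1, h2, h3, fun h => (h4 (fun p hp hpF => h p hp (hF hpF))).mono hΓ⟩

theorem step_le {C : Finset ℕ} {Γ' : Set (Fm × Label)} {x y : E} {X : Label}
    (hle : x.le y) (hx : x ≠ .bot) (hin : InT Γ' x X)
    (h : ∀ Γ'', Γ' ⊆ Γ'' → InT Γ'' y X → LC A BalC C Γ'') : LC A BalC C Γ' := by
  cases y with
  | top => exact h Γ' (subset_refl _) (fun φ hφ => by simp at hφ)
  | bot => exact absurd (E.eq_bot_of_le hle) hx
  | fm ψ =>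
    cases x with
    | bot => exact absurd rfl hx
    | top => simp [E.le] at hle
    | fm φ =>
      refine .recur φ ψ X (hin φ rfl) hle (h _ (Set.subset_insert _ _) ?_)
      intro ψ' hψ'
      simp only [E.fm.injEq] at hψ'
      subst hψ'
      exact Set.mem_insert _ _

theorem node_le {Q F : Set ℕ} {R : Label → M5 → Bool → Prop} {C : Finset ℕ}
    {Γ' : Set (Fm × Label)} {η η' : Fm} {X : Label} (hn : NodeOK Q F R Γ' η X)
    (hle : ∀ v, (T Q η v).le (T Q η' v))
    (h : ∀ Γ'', Γ' ⊆ Γ'' → NodeOK Q F R Γ'' η' X → LC A BalC C Γ'') :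
    LC A BalC C Γ' := by
  obtain ⟨v, θ, h1, h2, h3, h4⟩ := hn
  have h2' : T Q η' v ≠ .bot := fun h => h2 (E.eq_bot_of_le (h ▸ hle v))
  have h3' : θ = true → T Q η' v = .top := fun h => E.eq_top_of_le ((h3 h) ▸ hle v)
  by_cases hX : ∀ p ∈ X, p.1 ∉ F
  · refine step_le (hle v) h2 (h4 hX) (fun Γ'' hΓ hin => h Γ'' hΓ ?_)
    exact ⟨v, θ, h1, h2', h3', fun _ => hin⟩
  · exact h Γ' (subset_refl _) ⟨v, θ, h1, h2', h3', fun h => absurd h hX⟩

/-- Forking a negated conjunction in the target. -/
theorem fork2 {C : Finset ℕ} {Γ' : Set (Fm × Label)} {x y : E} {X : Label}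
    (hin : ∀ χ, x.inf y = .fm χ → (Fm.neg χ, X) ∈ Γ') (hb : x.inf y ≠ .bot)
    (ht : x.inf y ≠ .top)
    (h1 : ∀ γ Γ'', Γ' ⊆ Γ'' → x = .fm γ → (Fm.neg γ, X) ∈ Γ'' → LC A BalC C Γ'')
    (h2 : ∀ γ Γ'', Γ' ⊆ Γ'' → y = .fm γ → (Fm.neg γ, X) ∈ Γ'' → LC A BalC C Γ'') :
    LC A BalC C Γ' := by
  cases x with
  | bot => exact absurd rfl hb
  | top =>
    cases y with
    | bot => exact absurd rfl hb
    | top => exact absurd rfl ht
    | fm ψ => exact h2 ψ Γ' (subset_refl _) rfl (hin ψ rfl)
  | fm φ =>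
    cases y with
    | bot => exact absurd rfl hb
    | top => exact h1 φ Γ' (subset_refl _) rfl (hin φ rfl)
    | fm ψ =>
      refine .nconj φ ψ X (hin _ rfl) (h1 φ _ (Set.subset_insert _ _) rfl (Set.mem_insert _ _))
        (h2 ψ _ (Set.subset_insert _ _) rfl (Set.mem_insert _ _))

theorem inf_ne_bot {x y : E} (h : x.inf y ≠ .bot) : x ≠ .bot ∧ y ≠ .bot := by
  constructor
  · rintro rfl; exact h rfl
  · rintro rfl; cases x <;> exact h rfl

theorem fork5 {C : Finset ℕ} {Γ' : Set (Fm × Label)} {g : M5 → E} {X : Label} {χ : Fm}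
    (hχ : meet5 g = .fm χ) (hin : (Fm.neg χ, X) ∈ Γ')
    (h : ∀ u γ Γ'', Γ' ⊆ Γ'' → g u = .fm γ → (Fm.neg γ, X) ∈ Γ'' → LC A BalC C Γ'') :
    LC A BalC C Γ' := by
  unfold meet5 at hχ
  have hin' : ∀ χ', (g .e).inf ((g .a).inf ((g .a').inf ((g .t).inf (g .b)))) = .fm χ' →
      (Fm.neg χ', X) ∈ Γ' := by
    intro χ' h'
    rw [hχ] at h'
    simp only [E.fm.injEq] at h'
    exact h' ▸ hin
  refine fork2 hin' (by rw [hχ]; simp) (by rw [hχ]; simp)
    (fun γ Γ'' hs h1 h2 => h _ γ Γ'' hs h1 h2) ?_
  intro γ Γ1 hs h1 h2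
  have hin1 : ∀ χ', (g .a).inf ((g .a').inf ((g .t).inf (g .b))) = .fm χ' →
      (Fm.neg χ', X) ∈ Γ1 := by
    intro χ' h'
    rw [h1] at h'
    simp only [E.fm.injEq] at h'
    exact h' ▸ h2
  refine fork2 hin1 (by rw [h1]; simp) (by rw [h1]; simp)
    (fun γ Γ'' hs' h1 h2 => h _ γ Γ'' (hs.trans hs') h1 h2) ?_
  intro γ2 Γ2 hs2 h3 h4
  have hin2 : ∀ χ', (g .a').inf ((g .t).inf (g .b)) = .fm χ' →
      (Fm.neg χ', X) ∈ Γ2 := by
    intro χ' h'
    rw [h3] at h'
    simp only [E.fm.injEq] at h'
    exact h' ▸ h4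
  refine fork2 hin2 (by rw [h3]; simp) (by rw [h3]; simp)
    (fun γ Γ'' hs' h1 h2 => h _ γ Γ'' (hs.trans (hs2.trans hs')) h1 h2) ?_
  intro γ3 Γ3 hs3 h5 h6
  have hin3 : ∀ χ', (g .t).inf (g .b) = .fm χ' → (Fm.neg χ', X) ∈ Γ3 := by
    intro χ' h'
    rw [h5] at h'
    simp only [E.fm.injEq] at h'
    exact h' ▸ h6
  exact fork2 hin3 (by rw [h5]; simp) (by rw [h5]; simp)
    (fun γ Γ'' hs' h1 h2 => h _ γ Γ'' (hs.trans (hs2.trans (hs3.trans hs'))) h1 h2)
    (fun γ Γ'' hs' h1 h2 => h _ γ Γ'' (hs.trans (hs2.trans (hs3.trans hs'))) h1 h2)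

/-- Adding a node to the source. -/
theorem nodes_insert {Q F : Set ℕ} {R : Label → M5 → Bool → Prop}
    {Γ Γ' : Set (Fm × Label)} {η : Fm} {X : Label} (h : NodeOK Q F R Γ' η X)
    (hΓ : ∀ t ∈ Γ, NodeOK Q F R Γ' t.1 t.2) :
    ∀ t ∈ (insert (η, X) Γ : Set (Fm × Label)), NodeOK Q F R Γ' t.1 t.2 := by
  intro t ht
  rcases ht with rfl | ht
  · exact h
  · exact hΓ t ht

theorem nodes_mono {Q F : Set ℕ} {R : Label → M5 → Bool → Prop}
    {Γ Γ' Γ'' : Set (Fm × Label)} (hs : Γ' ⊆ Γ'')
    (hΓ : ∀ t ∈ Γ, NodeOK Q F R Γ' t.1 t.2) : ∀ t ∈ Γ, NodeOK Q F R Γ'' t.1 t.2 :=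
  fun t ht => (hΓ t ht).mono (subset_refl _) (fun h => h) hs

/-- The formulas whose translation is acceptable. -/
def SV (Q : Set ℕ) : Set Fm := {χ | (T Q χ .e).Val}

theorem SV_imp {Q : Set ℕ} {φ ψ : Fm} (h : Fm.imp φ ψ ∈ SV Q) (v : M5) :
    (T Q φ v).le (T Q ψ v) := by
  rw [← E.val_imp]
  have := E.val_mono (meet5_le _ v) h
  simpa only [M5.e_mul] using this

theorem exists_fm {g : M5 → E} {χ : Fm} (h : meet5 g = .fm χ) : ∃ u γ, g u = .fm γ := by
  by_contra hcon
  push Not at hcon
  have htop : ∀ u, g u = .top := by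
    intro u
    cases hg : g u with
    | top => rfl
    | bot =>
      have := meet5_le g u
      rw [hg] at this
      rw [E.eq_bot_of_le this] at h
      simp at h
    | fm γ => exact absurd hg (hcon u γ)
  rw [meet5_eq_top htop] at h
  simp at h

/-- The main induction. -/
theorem transform (Q : Set ℕ) {C : Finset ℕ} {Γ : Set (Fm × Label)}
    (h : LC (SV Q) BalC C Γ) : ∀ (F : Set ℕ) (R : Label → M5 → Bool → Prop)
      (Γ' : Set (Fm × Label)), GoodR C F R → (∀ t ∈ Γ, NodeOK Q F R Γ' t.1 t.2) →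
      LC A BalC C Γ' := by
  induction h with
  | @leaf C Γ ζ X Y h h' hl =>
    intro F R Γ' hR hΓ
    obtain ⟨v, θ, h1, h2, h3, h4⟩ := hΓ _ h
    obtain ⟨v', θ', h1', h2', h3', h4'⟩ := hΓ _ h'
    simp only at h1 h2 h3 h4 h1' h2' h3' h4'
    obtain ⟨h5, h6⟩ := hR.bal (hR.mul h1 h1') hl
    have h7 := T_mono Q ζ v v'.star (M5.le_star _ _ h5)
    simp only [T] at h2' h3' h4'
    cases hx : T Q ζ v with
    | bot => exact absurd hx h2
    | top =>
      rw [hx] at h7
      rw [E.eq_top_of_le h7] at h2'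
      exact absurd rfl h2'
    | fm φ =>
      cases hy : T Q ζ v'.star with
      | top => rw [hy] at h2'; exact absurd rfl h2'
      | bot => rw [hx, hy] at h7; simp [E.le] at h7
      | fm ψ =>
        have hθ : θ = false := by
          cases θ with
          | false => rfl
          | true => have := h3 rfl; rw [hx] at this; simp at this
        have hθ' : θ' = false := by
          cases θ' with
          | false => rfl
          | true => have := h3' rfl; rw [hy] at this; simp [E.neg] at this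
        subst hθ; subst hθ'
        have hunf : ∀ p ∈ X ∪ Y, p.1 ∉ F := by
          intro p hp hpF
          have := h6 ⟨p, hp, hpF⟩
          simp at this
        have h8 := h4 (fun p hp => hunf p (Or.inl hp)) φ hx
        have h9 := h4' (fun p hp => hunf p (Or.inr hp)) (.neg ψ) (by rw [hy]; rfl)
        rw [hx, hy] at h7
        refine .recur φ ψ X h8 h7 ?_
        exact .leaf ψ X Y (Set.mem_insert _ _) (Set.mem_insert_of_mem _ h9) hl
  | @conj C Γ φ ψ X h _ ih =>
    intro F R Γ' hR hΓ
    refine node_le (hΓ _ h) (η' := φ) (fun v => E.inf_le_left _ _) (fun Γ1 hs1 hn1 => ?_)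
    refine node_le ((hΓ _ h).mono (subset_refl _) (fun h => h) hs1) (η' := ψ)
      (fun v => E.inf_le_right _ _) (fun Γ2 hs2 hn2 => ?_)
    exact ih F R Γ2 hR (nodes_insert hn2 (nodes_insert
      (hn1.mono (subset_refl _) (fun h => h) hs2) (nodes_mono (hs1.trans hs2) hΓ)))
  | @ndisj C Γ φ ψ X h _ ih =>
    intro F R Γ' hR hΓ
    refine node_le (hΓ _ h) (η' := .neg φ) (fun v => E.neg_le (E.le_sup_left _ _))
      (fun Γ1 hs1 hn1 => ?_)
    refine node_le ((hΓ _ h).mono (subset_refl _) (fun h => h) hs1) (η' := .neg ψ)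
      (fun v => E.neg_le (E.le_sup_right _ _)) (fun Γ2 hs2 hn2 => ?_)
    exact ih F R Γ2 hR (nodes_insert hn2 (nodes_insert
      (hn1.mono (subset_refl _) (fun h => h) hs2) (nodes_mono (hs1.trans hs2) hΓ)))
  | @nneg C Γ φ X h _ ih =>
    intro F R Γ' hR hΓ
    refine node_le (hΓ _ h) (η' := φ) (fun v => ?_) (fun Γ1 hs1 hn1 => ?_)
    · simp only [T, M5.star_star]
      exact E.neg_neg_le _
    · exact ih F R Γ1 hR (nodes_insert hn1 (nodes_mono hs1 hΓ))
  | @nconj C Γ φ ψ X h _ _ ih ih' =>
    intro F R Γ' hR hΓ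
    obtain ⟨v, θ, h1, h2, h3, h4⟩ := hΓ _ h
    simp only at h1 h2 h3 h4
    simp only [T] at h2 h3 h4
    have hL : ∀ Γ1, Γ' ⊆ Γ1 → T Q φ v.star ≠ .top →
        (θ = true → (T Q φ v.star).neg = .top) →
        ((∀ p ∈ X, p.1 ∉ F) → InT Γ1 (T Q φ v.star).neg X) → LC A BalC C Γ1 := by
      intro Γ1 hs1 ha hb hc
      refine ih F R Γ1 hR (nodes_insert ⟨v, θ, h1, ?_, hb, hc⟩ (nodes_mono hs1 hΓ))
      intro hh
      simp only [T] at hh
      cases hx : T Q φ v.star with
      | top => exact ha hx
      | bot => rw [hx] at hh; simp [E.neg] at hh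
      | fm _ => rw [hx] at hh; simp [E.neg] at hh
    have hRt : ∀ Γ1, Γ' ⊆ Γ1 → T Q ψ v.star ≠ .top →
        (θ = true → (T Q ψ v.star).neg = .top) →
        ((∀ p ∈ X, p.1 ∉ F) → InT Γ1 (T Q ψ v.star).neg X) → LC A BalC C Γ1 := by
      intro Γ1 hs1 ha hb hc
      refine ih' F R Γ1 hR (nodes_insert ⟨v, θ, h1, ?_, hb, hc⟩ (nodes_mono hs1 hΓ))
      intro hh
      simp only [T] at hh
      cases hx : T Q ψ v.star with
      | top => exact ha hx
      | bot => rw [hx] at hh; simp [E.neg] at hh
      | fm _ => rw [hx] at hh; simp [E.neg] at hh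
    clear ih ih'
    generalize T Q φ v.star = x at *
    generalize T Q ψ v.star = y at *
    cases x with
    | bot =>
      refine hL Γ' (subset_refl _) (by simp) (fun _ => rfl) (fun _ => ?_)
      intro χ hχ
      simp [E.neg] at hχ
    | top =>
      refine hRt Γ' (subset_refl _) ?_ h3 h4
      rintro rfl
      exact h2 rfl
    | fm φ' =>
      cases y with
      | bot =>
        refine hRt Γ' (subset_refl _) (by simp) (fun _ => rfl) (fun _ => ?_)
        intro χ hχ
        simp [E.neg] at hχ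
      | top => exact hL Γ' (subset_refl _) (by simp) h3 h4
      | fm ψ' =>
        have hθ : θ = true → False := by
          intro hθ
          have := h3 hθ
          simp [E.inf, E.neg] at this
        by_cases hX : ∀ p ∈ X, p.1 ∉ F
        · have h5 := h4 hX _ rfl
          refine .nconj φ' ψ' X h5
            (hL _ (Set.subset_insert _ _) (by simp) (fun h => (hθ h).elim) (fun _ => ?_))
            (hRt _ (Set.subset_insert _ _) (by simp) (fun h => (hθ h).elim) (fun _ => ?_))
          · intro χ hχ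
            simp only [E.neg, E.fm.injEq] at hχ
            subst hχ
            exact Set.mem_insert _ _
          · intro χ hχ
            simp only [E.neg, E.fm.injEq] at hχ
            subst hχ
            exact Set.mem_insert _ _
        · exact hL Γ' (subset_refl _) (by simp) (fun h => (hθ h).elim)
            (fun h => absurd h hX)
  | @disj C Γ φ ψ X h _ _ ih ih' =>
    intro F R Γ' hR hΓ
    obtain ⟨v, θ, h1, h2, h3, h4⟩ := hΓ _ h
    simp only at h1 h2 h3 h4
    simp only [T] at h2 h3 h4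
    have hL : ∀ Γ1, Γ' ⊆ Γ1 → T Q φ v ≠ .bot →
        (θ = true → T Q φ v = .top) →
        ((∀ p ∈ X, p.1 ∉ F) → InT Γ1 (T Q φ v) X) → LC A BalC C Γ1 := by
      intro Γ1 hs1 ha hb hc
      exact ih F R Γ1 hR (nodes_insert ⟨v, θ, h1, ha, hb, hc⟩ (nodes_mono hs1 hΓ))
    have hRt : ∀ Γ1, Γ' ⊆ Γ1 → T Q ψ v ≠ .bot →
        (θ = true → T Q ψ v = .top) →
        ((∀ p ∈ X, p.1 ∉ F) → InT Γ1 (T Q ψ v) X) → LC A BalC C Γ1 := by
      intro Γ1 hs1 ha hb hc
      exact ih' F R Γ1 hR (nodes_insert ⟨v, θ, h1, ha, hb, hc⟩ (nodes_mono hs1 hΓ))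
    clear ih ih'
    generalize T Q φ v = x at *
    generalize T Q ψ v = y at *
    cases x with
    | top =>
      refine hL Γ' (subset_refl _) (by simp) (fun _ => rfl) (fun _ => ?_)
      intro χ hχ
      simp at hχ
    | bot =>
      refine hRt Γ' (subset_refl _) ?_ h3 h4
      rintro rfl
      exact h2 rfl
    | fm φ' =>
      cases y with
      | top =>
        refine hRt Γ' (subset_refl _) (by simp) (fun _ => rfl) (fun _ => ?_)
        intro χ hχ
        simp at hχ
      | bot => exact hL Γ' (subset_refl _) (by simp) h3 h4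
      | fm ψ' =>
        have hθ : θ = true → False := by
          intro hθ
          have := h3 hθ
          simp [E.sup] at this
        by_cases hX : ∀ p ∈ X, p.1 ∉ F
        · have h5 := h4 hX _ rfl
          refine .disj φ' ψ' X h5
            (hL _ (Set.subset_insert _ _) (by simp) (fun h => (hθ h).elim) (fun _ => ?_))
            (hRt _ (Set.subset_insert _ _) (by simp) (fun h => (hθ h).elim) (fun _ => ?_))
          · intro χ hχ
            simp only [E.fm.injEq] at hχ
            subst hχ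
            exact Set.mem_insert _ _
          · intro χ hχ
            simp only [E.fm.injEq] at hχ
            subst hχ
            exact Set.mem_insert _ _
        · exact hL Γ' (subset_refl _) (by simp) (fun h => (hθ h).elim)
            (fun h => absurd h hX)
  | @mp C Γ φ ψ X Y h h' _ ih =>
    intro F R Γ' hR hΓ
    obtain ⟨x, θ, h1, h2, h3, h4⟩ := hΓ _ h
    obtain ⟨y, θ', h1', h2', h3', h4'⟩ := hΓ _ h'
    simp only at h1 h2 h3 h4 h1' h2' h3' h4'
    have hcomp : (T Q (.imp φ ψ) y).le ((T Q φ x).imp (T Q ψ (y.mul x))) :=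
      meet5_le (fun u => (T Q φ u).imp (T Q ψ (y.mul u))) x
    rw [M5.mul_comm' y x] at hcomp
    have hcomp_ne : (T Q φ x).imp (T Q ψ (x.mul y)) ≠ .bot :=
      fun hh => h2' (E.eq_bot_of_le (hh ▸ hcomp))
    have hcomp_top : T Q (.imp φ ψ) y = .top → (T Q φ x).imp (T Q ψ (x.mul y)) = .top :=
      fun hh => E.eq_top_of_le (hh ▸ hcomp)
    have hne : T Q ψ (x.mul y) ≠ .bot := by
      intro hh
      rw [hh] at hcomp_ne
      cases hx : T Q φ x with
      | bot => exact h2 hx
      | top => rw [hx] at hcomp_ne; exact hcomp_ne rfl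
      | fm _ => rw [hx] at hcomp_ne; exact hcomp_ne rfl
    have htop1 : T Q φ x = .top → T Q ψ (x.mul y) = .top := by
      intro hh
      rw [hh] at hcomp_ne
      cases hz : T Q ψ (x.mul y) with
      | top => rfl
      | bot => exact absurd hz hne
      | fm _ => rw [hz] at hcomp_ne; exact absurd rfl hcomp_ne
    have htop2 : T Q (.imp φ ψ) y = .top → T Q ψ (x.mul y) = .top := by
      intro hh
      have := hcomp_top hh
      cases hz : T Q ψ (x.mul y) with
      | top => rfl
      | bot => exact absurd hz hne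
      | fm _ =>
        rw [hz] at this
        cases hx : T Q φ x with
        | bot => exact absurd hx h2
        | top => rw [hx] at this; simp [E.imp] at this
        | fm _ => rw [hx] at this; simp [E.imp] at this
    have hθθ : (θ || θ') = true → T Q ψ (x.mul y) = .top := by
      intro hh
      cases θ with
      | true => exact htop1 (h3 rfl)
      | false => exact htop2 (h3' (by simpa using hh))
    by_cases hXY : ∀ p ∈ X ∪ Y, p.1 ∉ F
    · have h5 := h4 (fun p hp => hXY p (Or.inl hp))
      have h6 := h4' (fun p hp => hXY p (Or.inr hp))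
      refine step_le hcomp h2' h6 (fun Γ1 hs1 hin1 => ?_)
      cases hz : T Q ψ (x.mul y) with
      | bot => exact absurd hz hne
      | top =>
        refine ih F R Γ1 hR (nodes_insert ⟨x.mul y, θ || θ', hR.mul h1 h1', hne, hθθ, ?_⟩
          (nodes_mono hs1 hΓ))
        intro _ χ hχ
        rw [hz] at hχ
        simp at hχ
      | fm ψ' =>
        cases hx : T Q φ x with
        | bot => exact absurd hx h2
        | top => rw [htop1 hx] at hz; simp at hz
        | fm φ' =>
          have h7 := hs1 (h5 φ' hx)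
          have h8 := hin1 (.imp φ' ψ') (by rw [hz, hx]; rfl)
          refine .mp φ' ψ' X Y h7 h8 ?_
          refine ih F R _ hR (nodes_insert ⟨x.mul y, θ || θ', hR.mul h1 h1', hne, hθθ, ?_⟩
            (nodes_mono (hs1.trans (Set.subset_insert _ _)) hΓ))
          intro _ χ hχ
          rw [hz] at hχ
          simp only [E.fm.injEq] at hχ
          subst hχ
          exact Set.mem_insert _ _
    · exact ih F R Γ' hR (nodes_insert ⟨x.mul y, θ || θ', hR.mul h1 h1', hne, hθθ,
        fun h => absurd h hXY⟩ hΓ)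
  | @counter C Γ φ ψ X k h hk _ ih =>
    intro F R Γ' hR hΓ
    obtain ⟨x, θ, h1, h2, h3, h4⟩ := hΓ _ h
    simp only at h1 h2 h3 h4
    simp only [T] at h2 h3 h4
    have hkX : ∀ b, (k, b) ∉ X := fun b hb => hk (hR.sub h1 _ hb)
    generalize hg : (fun u => (T Q φ u).imp (T Q ψ (x.star.mul u))) = g at *
    have hgu : ∀ u, g u = (T Q φ u).imp (T Q ψ (x.star.mul u)) := by
      intro u; rw [← hg]
    have hold : ∀ {u θu z θz F'} (Γ1 : Set (Fm × Label)), F ⊆ F' → Γ' ⊆ Γ1 →
        ∀ t ∈ Γ, NodeOK Q F' (extR R k X u θu z θz) Γ1 t.1 t.2 :=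
      fun Γ1 hF hs t ht => (hΓ t ht).mono hF extR_old hs
    cases hm : meet5 g with
    | top => rw [hm] at h2; exact absurd rfl h2
    | bot =>
      obtain ⟨u, hu⟩ := meet5_eq_bot hm
      rw [hgu] at hu
      classical
      have hG : GoodR (insert k C) (insert k F)
          (extR R k X u (decide (T Q φ u = .top)) (x.star.mul u).star
            (decide (T Q ψ (x.star.mul u) = .bot))) := by
        refine hR.ext hk h1 (M5.split_le _ _) (subset_refl _) ?_
          (fun h => absurd (Set.mem_insert _ _) h)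
        intro _
        cases hx : T Q φ u <;> cases hy : T Q ψ (x.star.mul u) <;>
          rw [hx, hy] at hu <;> simp [E.imp] at hu ⊢
      have hφ : T Q φ u ≠ .bot := by
        intro hh; rw [hh] at hu; simp [E.imp] at hu
      have hψ : T Q ψ (x.star.mul u) ≠ .top := by
        intro hh
        rw [hh] at hu
        cases hx : T Q φ u <;> rw [hx] at hu <;> simp [E.imp] at hu
      refine (ih (insert k F) _ Γ' hG ?_).weak (Finset.subset_insert _ _) (subset_refl _)
      refine nodes_insert ⟨(x.star.mul u).star, _, extR_false hR.emp, ?_, ?_, ?_⟩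
        (nodes_insert ⟨u, _, extR_true hR.emp, hφ, ?_, ?_⟩
          (hold Γ' (Set.subset_insert _ _) (subset_refl _)))
      · simp only [T, M5.star_star]
        intro hh
        cases hy : T Q ψ (x.star.mul u) with
        | top => exact hψ hy
        | bot => rw [hy] at hh; simp [E.neg] at hh
        | fm _ => rw [hy] at hh; simp [E.neg] at hh
      · intro hd
        simp only [T, M5.star_star]
        rw [of_decide_eq_true hd]
        rfl
      · intro hX
        exact absurd (Set.mem_insert _ _) (hX (k, false) (Set.mem_insert _ _))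
      · intro hd
        exact of_decide_eq_true hd
      · intro hX
        exact absurd (Set.mem_insert _ _) (hX (k, true) (Set.mem_insert _ _))
    | fm χ =>
      have hθ : θ = false := by
        cases θ with
        | false => rfl
        | true => have := h3 rfl; rw [hm] at this; simp [E.neg] at this
      subst hθ
      by_cases hX : ∀ p ∈ X, p.1 ∉ F
      · have h5 := h4 hX (.neg χ) (by rw [hm]; rfl)
        refine fork5 hm h5 (fun u γ Γ1 hs1 hu hn => ?_)
        rw [hgu] at hu
        cases hx : T Q φ u with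
        | bot => rw [hx] at hu; simp [E.imp] at hu
        | top =>
          rw [hx] at hu
          cases hy : T Q ψ (x.star.mul u) <;> rw [hy] at hu <;> simp [E.imp] at hu
        | fm α =>
          cases hy : T Q ψ (x.star.mul u) with
          | bot => rw [hx, hy] at hu; simp [E.imp] at hu
          | top => rw [hx, hy] at hu; simp [E.imp] at hu
          | fm β =>
            rw [hx, hy] at hu
            simp only [E.imp, E.fm.injEq] at hu
            subst hu
            have hG : GoodR (insert k C) (F \ {k})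
                (extR R k X u false (x.star.mul u).star false) := by
              refine hR.ext hk h1 (M5.split_le _ _)
                (fun p hp => Or.inr hp.1) ?_ (fun _ => rfl)
              intro hh
              exact absurd rfl hh.2
            refine .counter α β X k hn hk (ih (F \ {k}) _ _ hG ?_)
            have hXk : ∀ (c : ℕ × Bool), c.1 = k → c.1 ∉ F \ {k} := fun c hc hh => hh.2 hc
            refine nodes_insert ⟨(x.star.mul u).star, _, extR_false hR.emp, ?_, by simp, ?_⟩
              (nodes_insert ⟨u, _, extR_true hR.emp, by rw [hx]; simp, by simp, ?_⟩ ?_)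
            · simp only [T, M5.star_star, hy, E.neg]
              simp
            · intro _ η hη
              simp only [T, M5.star_star, hy, E.neg, E.fm.injEq] at hη
              subst hη
              exact Set.mem_insert _ _
            · intro _ η hη
              rw [hx] at hη
              simp only [E.fm.injEq] at hη
              subst hη
              exact Set.mem_insert_of_mem _ (Set.mem_insert _ _)
            · intro t ht
              obtain ⟨v, θ, a1, a2, a3, a4⟩ := hΓ t ht
              refine ⟨v, θ, extR_old a1, a2, a3, fun hun => ?_⟩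
              refine (a4 (fun p hp hpF => hun p hp ⟨hpF, ?_⟩)).mono
                (hs1.trans ((Set.subset_insert _ _).trans (Set.subset_insert _ _)))
              intro hpk
              exact hk (hpk ▸ hR.sub a1 p hp)
      · obtain ⟨u, γ, hu⟩ := exists_fm hm
        push Not at hX
        obtain ⟨p0, hp0, hp0F⟩ := hX
        have hp0k : p0.1 ≠ k := fun hh => hk (hh ▸ hR.sub h1 p0 hp0)
        rw [hgu] at hu
        cases hx : T Q φ u with
        | bot => rw [hx] at hu; simp [E.imp] at hu
        | top =>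
          rw [hx] at hu
          cases hy : T Q ψ (x.star.mul u) <;> rw [hy] at hu <;> simp [E.imp] at hu
        | fm α =>
          cases hy : T Q ψ (x.star.mul u) with
          | bot => rw [hx, hy] at hu; simp [E.imp] at hu
          | top => rw [hx, hy] at hu; simp [E.imp] at hu
          | fm β =>
            have hG : GoodR (insert k C) (F \ {k})
                (extR R k X u false (x.star.mul u).star false) := by
              refine hR.ext hk h1 (M5.split_le _ _)
                (fun p hp => Or.inr hp.1) ?_ (fun _ => rfl)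
              intro hh
              exact absurd rfl hh.2
            refine (ih (F \ {k}) _ Γ' hG ?_).weak (Finset.subset_insert _ _) (subset_refl _)
            refine nodes_insert ⟨(x.star.mul u).star, _, extR_false hR.emp, ?_, by simp, ?_⟩
              (nodes_insert ⟨u, _, extR_true hR.emp, by rw [hx]; simp, by simp, ?_⟩ ?_)
            · simp only [T, M5.star_star, hy, E.neg]
              simp
            · intro hh
              exact absurd ⟨hp0F, hp0k⟩ (hh p0 (Set.mem_insert_of_mem _ hp0))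
            · intro hh
              exact absurd ⟨hp0F, hp0k⟩ (hh p0 (Set.mem_insert_of_mem _ hp0))
            · intro t ht
              obtain ⟨v, θ, a1, a2, a3, a4⟩ := hΓ t ht
              refine ⟨v, θ, extR_old a1, a2, a3, fun hun => ?_⟩
              refine a4 (fun p hp hpF => hun p hp ⟨hpF, ?_⟩)
              intro hpk
              exact hk (hpk ▸ hR.sub a1 p hp)
  | @recur C Γ φ ψ X h hS _ ih =>
    intro F R Γ' hR hΓ
    refine node_le (hΓ _ h) (η' := ψ) (fun v => SV_imp hS v) (fun Γ1 hs1 hn1 => ?_)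
    exact ih F R Γ1 hR (nodes_insert hn1 (nodes_mono hs1 hΓ))

/-- The initial assignment. -/
theorem goodR_init : GoodR ∅ ∅ (fun L v θ => L = ∅ ∧ v = .e ∧ θ = false) where
  emp := ⟨rfl, rfl, rfl⟩
  mul := by
    rintro _ _ _ _ _ _ ⟨rfl, rfl, rfl⟩ ⟨rfl, rfl, rfl⟩
    exact ⟨by simp, rfl, rfl⟩
  sub := by
    rintro _ _ _ ⟨rfl, rfl, rfl⟩ p hp
    exact absurd hp (by simp)
  bal := by
    rintro _ _ _ ⟨rfl, rfl, rfl⟩ _
    refine ⟨rfl, ?_⟩
    rintro ⟨p, hp, -⟩
    exact absurd hp (by simp)

theorem LC_nonempty {S : Set Fm} {lf : Finset ℕ → Label → Prop} {C : Finset ℕ}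
    {Γ : Set (Fm × Label)} (h : LC S lf C Γ) : Γ.Nonempty := by
  cases h with
  | leaf ζ X Y h h' hl => exact ⟨_, h⟩
  | conj φ ψ X h _ => exact ⟨_, h⟩
  | ndisj φ ψ X h _ => exact ⟨_, h⟩
  | nneg φ X h _ => exact ⟨_, h⟩
  | nconj φ ψ X h _ _ => exact ⟨_, h⟩
  | disj φ ψ X h _ _ => exact ⟨_, h⟩
  | mp φ ψ X Y h h' _ => exact ⟨_, h⟩
  | counter φ ψ X k h hk _ => exact ⟨_, h⟩
  | recur φ ψ X h hS _ => exact ⟨_, h⟩

/-- The translation preserves acceptability. -/
theorem A_subset_SV (Q : Set ℕ) : A ⊆ SV Q := by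
  refine A_least ?_
  intro χ hχ
  rw [hasTree_iff match_parity] at hχ
  show (T Q χ .e).Val
  cases hx : T Q χ .e with
  | top => trivial
  | bot =>
    have := transform Q hχ ∅ _ ∅ goodR_init (by
      rintro t rfl
      refine ⟨.e, false, ⟨rfl, rfl, rfl⟩, ?_, by simp, ?_⟩
      · simp [T, M5.star, hx, E.neg]
      · intro _ φ hφ
        simp [T, M5.star, hx, E.neg] at hφ)
    exact absurd (LC_nonempty this) (by simp)
  | fm φ =>
    show φ ∈ A
    rw [mem_A_iff]
    refine transform Q hχ ∅ _ _ goodR_init ?_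
    rintro t rfl
    refine ⟨.e, false, ⟨rfl, rfl, rfl⟩, ?_, by simp, ?_⟩
    · simp [T, M5.star, hx, E.neg]
    · intro _ φ' hφ'
      simp only [T, M5.star, hx, E.neg, E.fm.injEq] at hφ'
      subst hφ'
      exact Set.mem_singleton _

/-- Letter-sharing. -/
theorem letter_sharing {φ ψ : Fm} (h : Fm.imp φ ψ ∈ A) :
    ∃ n, n ∈ φ.letters ∧ n ∈ ψ.letters := by
  by_contra hcon
  push Not at hcon
  have h1 := SV_imp (A_subset_SV φ.letters h) .a
  rw [(T_in φ.letters φ (subset_refl _)).1] at h1
  obtain ⟨ψ', hψ'⟩ := T_out_fm φ.letters ψ (fun n hn hn' => hcon n hn' hn) .a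
  rw [hψ'] at h1
  simp [E.le] at h1

theorem omit_and {α β γ : Fm} (h1 : ∀ n ∈ β.letters, n ∉ α.letters)
    (h2 : ∀ n ∈ β.letters, n ∉ γ.letters) (h : Fm.imp (.and α β) γ ∈ A) :
    Fm.imp α γ ∈ A := by
  have h3 := SV_imp (A_subset_SV β.letters h) .a
  have ha := T_out β.letters α (fun n hn hn' => h1 n hn' hn) .a
  have hc := T_out β.letters γ (fun n hn hn' => h2 n hn' hn) .a
  have hb := (T_in β.letters β (subset_refl _)).1
  simp only [T, hb] at h3
  have h4 : (T β.letters α .a).le (T β.letters γ .a) := by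
    refine E.le_trans (E.le_inf (E.le_refl _) ?_) h3
    cases T β.letters α .a <;> simp [E.le]
  exact E.le_trans ha.2 (E.le_trans h4 hc.1)

theorem omit_or {α β γ : Fm} (h1 : ∀ n ∈ β.letters, n ∉ α.letters)
    (h2 : ∀ n ∈ β.letters, n ∉ γ.letters) (h : Fm.imp α (.or β γ) ∈ A) :
    Fm.imp α γ ∈ A := by
  have h3 := SV_imp (A_subset_SV β.letters h) .a'
  have ha := T_out β.letters α (fun n hn hn' => h1 n hn' hn) .a'
  have hc := T_out β.letters γ (fun n hn hn' => h2 n hn' hn) .a'
  have hb := (T_in β.letters β (subset_refl _)).2.2.1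
  simp only [T, hb] at h3
  have h4 : (T β.letters α .a').le (T β.letters γ .a') := by
    refine E.le_trans h3 (E.sup_le ?_ (E.le_refl _))
    cases T β.letters γ .a' <;> simp [E.le]
  exact E.le_trans ha.2 (E.le_trans h4 hc.1)

end Pool.Agent.R599.TT
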