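import Pool.Agent.R599.TT.Lab

/-!
# A translation of the acceptable formulas

A five-element partially ordered monoid and a translation of formulas into
formulas-with-extremes which preserves acceptability.
-/

namespace Pool.Agent.R599.TT

/-! ### Basic facts on acceptability -/

abbrev BalC : Finset ℕ → Label → Prop := fun _ L => Bal L

theorem HasTree.mono {S S' : Set Fm} (hS : S ⊆ S') {χ : Fm} (h : HasTree S Parity χ) :
    HasTree S' Parity χ := by
  rw [hasTree_iff match_parity] at h ⊢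
  exact LC.mono (lf' := BalC) hS (fun _ _ _ _ h => h) h (subset_refl _) (subset_refl _)

theorem A_closed {χ : Fm} (h : HasTree A Parity χ) : χ ∈ A := by
  intro S hS
  have hle : A ⊆ S := fun φ hφ => hφ S hS
  exact hS χ (h.mono hle)

theorem A_least {S : Set Fm} (hS : ∀ ψ, HasTree S Parity ψ → ψ ∈ S) : A ⊆ S :=
  fun _ hφ => hφ S hS

theorem A_tree {χ : Fm} (h : χ ∈ A) : HasTree A Parity χ := by
  refine A_least (S := {χ | HasTree A Parity χ}) ?_ h
  intro ψ hψ
  exact hψ.mono (fun φ hφ => A_closed hφ)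

theorem mem_A_iff {χ : Fm} : χ ∈ A ↔ LC A BalC ∅ {(Fm.neg χ, ∅)} := by
  rw [← hasTree_iff match_parity]
  exact ⟨A_tree, A_closed⟩

theorem LC.weak {C C' : Finset ℕ} {Γ Γ' : Set (Fm × Label)} (h : LC A BalC C Γ)
    (hC : C' ⊆ C) (hΓ : Γ ⊆ Γ') : LC A BalC C' Γ' :=
  LC.mono (lf' := BalC) (subset_refl _) (fun _ _ _ _ h => h) h hC hΓ

theorem bal_pair (k : ℕ) (X : Label) (hX : Bal X) :
    Bal (insert (k, true) (insert (k, false) X)) := by
  intro j
  simp only [Set.mem_insert_iff, Prod.mk.injEq, and_true, Bool.true_eq_false, and_false,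
    false_or, Bool.false_eq_true]
  by_cases h : j = k
  · simp [h]
  · simp [h, hX j]

theorem bal_empty : Bal ∅ := fun _ => by simp

theorem A_imp_of {φ ψ : Fm}
    (h : LC A BalC (insert 0 ∅)
      (insert (Fm.neg ψ, {(0, false)}) (insert (φ, {(0, true)}) {(Fm.neg (Fm.imp φ ψ), ∅)}))) :
    Fm.imp φ ψ ∈ A := by
  rw [mem_A_iff]
  refine .counter φ ψ ∅ 0 rfl (by simp) ?_
  simpa using h

theorem bal01 : Bal (({(0, true)} : Label) ∪ {(0, false)}) := by
  intro k
  simp

theorem bal01' : Bal (({(0, false)} : Label) ∪ {(0, true)}) := by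
  intro k
  simp

theorem A_id (φ : Fm) : Fm.imp φ φ ∈ A := by
  refine A_imp_of (.leaf φ {(0, true)} {(0, false)} ?_ ?_ bal01) <;> simp

theorem A_contra {φ ψ : Fm} (h : Fm.imp φ ψ ∈ A) : Fm.imp (.neg ψ) (.neg φ) ∈ A := by
  refine A_imp_of ?_
  refine .nneg φ {(0, false)} (by simp) ?_
  refine .recur φ ψ {(0, false)} (by simp) h ?_
  refine .leaf ψ {(0, false)} {(0, true)} (by simp) (by simp) bal01'

theorem A_trans {φ ψ χ : Fm} (h : Fm.imp φ ψ ∈ A) (h' : Fm.imp ψ χ ∈ A) :
    Fm.imp φ χ ∈ A := by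
  refine A_imp_of ?_
  refine .recur φ ψ {(0, true)} (by simp) h ?_
  refine .recur ψ χ {(0, true)} (by simp) h' ?_
  refine .leaf χ {(0, true)} {(0, false)} (by simp) (by simp) bal01

theorem A_detach {φ ψ : Fm} (h : Fm.imp φ ψ ∈ A) (h' : φ ∈ A) : ψ ∈ A := by
  rw [mem_A_iff] at h' ⊢
  refine .recur (.neg ψ) (.neg φ) ∅ rfl (A_contra h) ?_
  exact h'.weak (subset_refl _) (by simp)

theorem A_dne (φ : Fm) : Fm.imp (.neg (.neg φ)) φ ∈ A := by
  refine A_imp_of ?_
  refine .nneg φ {(0, true)} (by simp) ?_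
  refine .leaf φ {(0, true)} {(0, false)} (by simp) (by simp) bal01

theorem A_dni (φ : Fm) : Fm.imp φ (.neg (.neg φ)) ∈ A := by
  refine A_imp_of ?_
  refine .nneg (.neg φ) {(0, false)} (by simp) ?_
  refine .leaf φ {(0, true)} {(0, false)} (by simp) (by simp) bal01

theorem A_andl (φ ψ : Fm) : Fm.imp (.and φ ψ) φ ∈ A := by
  refine A_imp_of ?_
  refine .conj φ ψ {(0, true)} (by simp) ?_
  refine .leaf φ {(0, true)} {(0, false)} (by simp) (by simp) bal01

theorem A_andr (φ ψ : Fm) : Fm.imp (.and φ ψ) ψ ∈ A := by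
  refine A_imp_of ?_
  refine .conj φ ψ {(0, true)} (by simp) ?_
  refine .leaf ψ {(0, true)} {(0, false)} (by simp) (by simp) bal01

theorem A_andi {φ ψ χ : Fm} (h : Fm.imp φ ψ ∈ A) (h' : Fm.imp φ χ ∈ A) :
    Fm.imp φ (.and ψ χ) ∈ A := by
  refine A_imp_of ?_
  refine .nconj ψ χ {(0, false)} (by simp) ?_ ?_
  · refine .recur φ ψ {(0, true)} (by simp) h ?_
    refine .leaf ψ {(0, true)} {(0, false)} (by simp) (by simp) bal01
  · refine .recur φ χ {(0, true)} (by simp) h' ?_
    refine .leaf χ {(0, true)} {(0, false)} (by simp) (by simp) bal01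

theorem A_orl (φ ψ : Fm) : Fm.imp φ (.or φ ψ) ∈ A := by
  refine A_imp_of ?_
  refine .ndisj φ ψ {(0, false)} (by simp) ?_
  refine .leaf φ {(0, true)} {(0, false)} (by simp) (by simp) bal01

theorem A_orr (φ ψ : Fm) : Fm.imp ψ (.or φ ψ) ∈ A := by
  refine A_imp_of ?_
  refine .ndisj φ ψ {(0, false)} (by simp) ?_
  refine .leaf ψ {(0, true)} {(0, false)} (by simp) (by simp) bal01

theorem A_ore {φ ψ χ : Fm} (h : Fm.imp φ χ ∈ A) (h' : Fm.imp ψ χ ∈ A) :
    Fm.imp (.or φ ψ) χ ∈ A := by
  refine A_imp_of ?_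
  refine .disj φ ψ {(0, true)} (by simp) ?_ ?_
  · refine .recur φ χ {(0, true)} (by simp) h ?_
    refine .leaf χ {(0, true)} {(0, false)} (by simp) (by simp) bal01
  · refine .recur ψ χ {(0, true)} (by simp) h' ?_
    refine .leaf χ {(0, true)} {(0, false)} (by simp) (by simp) bal01

theorem A_imono {φ φ' ψ ψ' : Fm} (h : Fm.imp φ' φ ∈ A) (h' : Fm.imp ψ ψ' ∈ A) :
    Fm.imp (.imp φ ψ) (.imp φ' ψ') ∈ A := by
  refine A_imp_of ?_
  refine .counter φ' ψ' {(0, false)} 1 (by simp) (by simp) ?_
  refine .recur φ' φ {(1, true), (0, false)} (by simp) h ?_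
  refine .mp φ ψ {(1, true), (0, false)} {(0, true)} (by simp) (by simp) ?_
  refine .recur ψ ψ' ({(1, true), (0, false)} ∪ {(0, true)}) (by simp) h' ?_
  refine .leaf ψ' ({(1, true), (0, false)} ∪ {(0, true)}) {(1, false), (0, false)}
    (by simp) (by simp) ?_
  intro k
  simp
  tauto

/-! ### Formulas with extremes -/

/-- Formulas together with a top and a bottom. -/
inductive E
  | top
  | bot
  | fm (φ : Fm)

namespace E

def le : E → E → Prop
  | .bot, _ => True
  | .top, .top => True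
  | .top, _ => False
  | .fm _, .top => True
  | .fm _, .bot => False
  | .fm φ, .fm ψ => Fm.imp φ ψ ∈ A

def neg : E → E
  | .bot => .top
  | .top => .bot
  | .fm φ => .fm (.neg φ)

def inf : E → E → E
  | .bot, _ => .bot
  | .top, x => x
  | .fm _, .bot => .bot
  | .fm φ, .top => .fm φ
  | .fm φ, .fm ψ => .fm (.and φ ψ)

def sup : E → E → E
  | .top, _ => .top
  | .bot, x => x
  | .fm _, .top => .top
  | .fm φ, .bot => .fm φ
  | .fm φ, .fm ψ => .fm (.or φ ψ)

def imp : E → E → E
  | .bot, _ => .top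
  | .top, .top => .top
  | .top, _ => .bot
  | .fm _, .top => .top
  | .fm _, .bot => .bot
  | .fm φ, .fm ψ => .fm (.imp φ ψ)

/-- Acceptable elements. -/
def Val : E → Prop
  | .top => True
  | .bot => False
  | .fm φ => φ ∈ A

theorem le_refl (x : E) : x.le x := by
  cases x <;> simp [le, A_id]

theorem le_trans {x y z : E} (h : x.le y) (h' : y.le z) : x.le z := by
  cases x <;> cases y <;> cases z <;> simp [le] at h h' ⊢
  exact A_trans h h'

theorem neg_le {x y : E} (h : x.le y) : y.neg.le x.neg := by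
  cases x <;> cases y <;> simp [le, neg] at h ⊢
  exact A_contra h

theorem inf_le_left (x y : E) : (x.inf y).le x := by
  cases x <;> cases y <;> simp [le, inf, A_id, A_andl]

theorem inf_le_right (x y : E) : (x.inf y).le y := by
  cases x <;> cases y <;> simp [le, inf, A_id, A_andr]

theorem le_inf {x y z : E} (h : z.le x) (h' : z.le y) : z.le (x.inf y) := by
  cases x <;> cases y <;> cases z <;> simp [le, inf] at h h' ⊢
  · exact h'
  · exact h
  · exact A_andi h h'

theorem le_sup_left (x y : E) : x.le (x.sup y) := by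
  cases x <;> cases y <;> simp [le, sup, A_id, A_orl]

theorem le_sup_right (x y : E) : y.le (x.sup y) := by
  cases x <;> cases y <;> simp [le, sup, A_id, A_orr]

theorem sup_le {x y z : E} (h : x.le z) (h' : y.le z) : (x.sup y).le z := by
  cases x <;> cases y <;> cases z <;> simp [le, sup] at h h' ⊢
  · exact h'
  · exact h
  · exact A_ore h h'

theorem imp_mono {x x' y y' : E} (h : x'.le x) (h' : y.le y') :
    (x.imp y).le (x'.imp y') := by
  cases x <;> cases x' <;> cases y <;> cases y' <;> simp [le, imp] at h h' ⊢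
  exact A_imono h h'

theorem inf_mono {x x' y y' : E} (h : x.le x') (h' : y.le y') :
    (x.inf y).le (x'.inf y') :=
  le_inf (le_trans (inf_le_left _ _) h) (le_trans (inf_le_right _ _) h')

theorem sup_mono {x x' y y' : E} (h : x.le x') (h' : y.le y') :
    (x.sup y).le (x'.sup y') :=
  sup_le (le_trans h (le_sup_left _ _)) (le_trans h' (le_sup_right _ _))

theorem neg_neg_le (x : E) : x.neg.neg.le x := by
  cases x <;> simp [le, neg, A_dne]

theorem le_neg_neg (x : E) : x.le x.neg.neg := by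
  cases x <;> simp [le, neg, A_dni]

theorem val_imp {x y : E} : (x.imp y).Val ↔ x.le y := by
  cases x <;> cases y <;> simp [le, imp, Val]

theorem val_mono {x y : E} (h : x.le y) (h' : x.Val) : y.Val := by
  cases x <;> cases y <;> simp [le, Val] at h h' ⊢
  exact A_detach h h'

theorem eq_bot_of_le {x : E} (h : x.le .bot) : x = .bot := by
  cases x <;> simp [le] at h ⊢

theorem eq_top_of_le {x : E} (h : E.le .top x) : x = .top := by
  cases x <;> simp [le] at h ⊢

end E

/-! ### The monoid -/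

/-- The five elements. -/
inductive M5
  | e | a | a' | t | b
  deriving DecidableEq

namespace M5

instance : Fintype M5 := ⟨{.e, .a, .a', .t, .b}, by intro x; cases x <;> decide⟩

def mul : M5 → M5 → M5
  | .e, x => x
  | x, .e => x
  | .t, x => x
  | x, .t => x
  | .a, .a => .a
  | .a', .a' => .a'
  | _, _ => .b

def star : M5 → M5
  | .e => .e
  | .a => .a'
  | .a' => .a
  | .t => .b
  | .b => .t

def le : M5 → M5 → Bool
  | .b, _ => true
  | _, .t => true
  | .e, .e => true
  | .a, .a => true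
  | .a', .a' => true
  | _, _ => false

theorem mul_comm' : ∀ x y : M5, x.mul y = y.mul x := by decide
theorem mul_assoc' : ∀ x y z : M5, (x.mul y).mul z = x.mul (y.mul z) := by decide
theorem mul_self' : ∀ x : M5, x.mul x = x := by decide
theorem e_mul : ∀ x : M5, M5.e.mul x = x := by decide
theorem mul_e : ∀ x : M5, x.mul .e = x := by decide
theorem star_star : ∀ x : M5, x.star.star = x := by decide
theorem le_trans' : ∀ x y z : M5, x.le y = true → y.le z = true → x.le z = true := by decide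
theorem mul_le : ∀ x y z : M5, x.le y = true → (x.mul z).le (y.mul z) = true := by decide
theorem le_mul : ∀ x y z : M5, x.le y = true → (z.mul x).le (z.mul y) = true := by decide
theorem star_le : ∀ x y : M5, x.le y = true → y.star.le x.star = true := by decide
theorem le_star : ∀ x y : M5, (x.mul y).le .e = true → x.le y.star = true := by decide
theorem split_le : ∀ x u : M5, (u.mul ((x.star.mul u).star)).le x = true := by decide

end M5

/-- Conjunction of five elements indexed by the monoid. -/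
def meet5 (g : M5 → E) : E :=
  (g .e).inf ((g .a).inf ((g .a').inf ((g .t).inf (g .b))))

theorem meet5_le (g : M5 → E) (u : M5) : (meet5 g).le (g u) := by
  unfold meet5
  cases u
  · exact E.inf_le_left _ _
  · exact E.le_trans (E.inf_le_right _ _) (E.inf_le_left _ _)
  · exact E.le_trans (E.inf_le_right _ _) (E.le_trans (E.inf_le_right _ _) (E.inf_le_left _ _))
  · exact E.le_trans (E.inf_le_right _ _) (E.le_trans (E.inf_le_right _ _)
      (E.le_trans (E.inf_le_right _ _) (E.inf_le_left _ _)))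
  · exact E.le_trans (E.inf_le_right _ _) (E.le_trans (E.inf_le_right _ _)
      (E.le_trans (E.inf_le_right _ _) (E.inf_le_right _ _)))

theorem le_meet5 {g : M5 → E} {x : E} (h : ∀ u, x.le (g u)) : x.le (meet5 g) :=
  E.le_inf (h _) (E.le_inf (h _) (E.le_inf (h _) (E.le_inf (h _) (h _))))

theorem meet5_mono {g g' : M5 → E} (h : ∀ u, (g u).le (g' u)) :
    (meet5 g).le (meet5 g') :=
  le_meet5 (fun u => E.le_trans (meet5_le g u) (h u))

theorem inf_eq_bot {x y : E} (h : x.inf y = .bot) : x = .bot ∨ y = .bot := by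
  cases x <;> cases y <;> simp [E.inf] at h ⊢

theorem inf_eq_top {x y : E} (h : x = .top) (h' : y = .top) : x.inf y = .top := by
  subst h; subst h'; rfl

theorem meet5_eq_bot {g : M5 → E} (h : meet5 g = .bot) : ∃ u, g u = .bot := by
  rcases inf_eq_bot h with h | h
  · exact ⟨_, h⟩
  rcases inf_eq_bot h with h | h
  · exact ⟨_, h⟩
  rcases inf_eq_bot h with h | h
  · exact ⟨_, h⟩
  rcases inf_eq_bot h with h | h
  · exact ⟨_, h⟩
  · exact ⟨_, h⟩

theorem meet5_eq_top {g : M5 → E} (h : ∀ u, g u = .top) : meet5 g = .top :=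
  inf_eq_top (h _) (inf_eq_top (h _) (inf_eq_top (h _) (inf_eq_top (h _) (h _))))

open Classical in
/-- The translation: letters in `Q` become extremes. -/
noncomputable def T (Q : Set ℕ) : Fm → M5 → E
  | .var n, v => if n ∈ Q then (if v = .a ∨ v = .t then .top else .bot) else .fm (.var n)
  | .neg φ, v => (T Q φ v.star).neg
  | .and φ ψ, v => (T Q φ v).inf (T Q ψ v)
  | .or φ ψ, v => (T Q φ v).sup (T Q ψ v)
  | .imp φ ψ, v => meet5 (fun u => (T Q φ u).imp (T Q ψ (v.mul u)))

theorem T_mono (Q : Set ℕ) (φ : Fm) : ∀ v v' : M5, v.le v' = true →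
    (T Q φ v).le (T Q φ v') := by
  induction φ with
  | var n =>
    intro v v' h
    simp only [T]
    by_cases hn : n ∈ Q
    · simp only [hn, if_true]
      cases v <;> cases v' <;> simp [M5.le, E.le] at h ⊢
    · simp only [hn, if_false]
      exact E.le_refl _
  | neg φ ih => intro v v' h; exact E.neg_le (ih _ _ (M5.star_le _ _ h))
  | and φ ψ ih ih' => intro v v' h; exact E.inf_mono (ih _ _ h) (ih' _ _ h)
  | or φ ψ ih ih' => intro v v' h; exact E.sup_mono (ih _ _ h) (ih' _ _ h)
  | imp φ ψ ih ih' =>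
    intro v v' h
    exact meet5_mono (fun u => E.imp_mono (E.le_refl _) (ih' _ _ (M5.mul_le _ _ _ h)))

/-- Formulas without letters in `Q` are translated into equivalent formulas. -/
theorem T_out (Q : Set ℕ) (φ : Fm) (h : ∀ n ∈ φ.letters, n ∉ Q) (v : M5) :
    (T Q φ v).le (.fm φ) ∧ (E.fm φ).le (T Q φ v) := by
  induction φ generalizing v with
  | var n =>
    have : n ∉ Q := h n rfl
    simp only [T, this, if_false]
    exact ⟨E.le_refl _, E.le_refl _⟩
  | neg φ ih =>
    have := ih h v.star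
    exact ⟨E.neg_le this.2, E.neg_le this.1⟩
  | and φ ψ ih ih' =>
    have h1 := ih (fun n hn => h n (Or.inl hn)) v
    have h2 := ih' (fun n hn => h n (Or.inr hn)) v
    exact ⟨E.inf_mono h1.1 h2.1, E.inf_mono h1.2 h2.2⟩
  | or φ ψ ih ih' =>
    have h1 := ih (fun n hn => h n (Or.inl hn)) v
    have h2 := ih' (fun n hn => h n (Or.inr hn)) v
    exact ⟨E.sup_mono h1.1 h2.1, E.sup_mono h1.2 h2.2⟩
  | imp φ ψ ih ih' =>
    have h1 := fun v => ih (fun n hn => h n (Or.inl hn)) v
    have h2 := fun v => ih' (fun n hn => h n (Or.inr hn)) v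
    constructor
    · exact E.le_trans (meet5_le _ .e) (E.imp_mono (h1 _).2 (h2 _).1)
    · exact le_meet5 (fun u => E.imp_mono (h1 _).1 (h2 _).2)

theorem T_out_fm (Q : Set ℕ) (φ : Fm) (h : ∀ n ∈ φ.letters, n ∉ Q) (v : M5) :
    ∃ φ', T Q φ v = .fm φ' := by
  have h1 := T_out Q φ h v
  cases hv : T Q φ v with
  | top => rw [hv] at h1; exact absurd h1.1 (by simp [E.le])
  | bot => rw [hv] at h1; exact absurd h1.2 (by simp [E.le])
  | fm φ' => exact ⟨φ', rfl⟩

/-- Formulas all of whose letters are in `Q` are translated into extremes. -/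
theorem T_in (Q : Set ℕ) (φ : Fm) (h : φ.letters ⊆ Q) :
    T Q φ .a = .top ∧ T Q φ .t = .top ∧ T Q φ .a' = .bot ∧ T Q φ .b = .bot := by
  induction φ with
  | var n =>
    have : n ∈ Q := h rfl
    simp [T, this]
  | neg φ ih =>
    obtain ⟨h1, h2, h3, h4⟩ := ih h
    simp [T, M5.star, h1, h2, h3, h4, E.neg]
  | and φ ψ ih ih' =>
    obtain ⟨h1, h2, h3, h4⟩ := ih (fun n hn => h (Or.inl hn))
    obtain ⟨h1', h2', h3', h4'⟩ := ih' (fun n hn => h (Or.inr hn))
    simp [T, h1, h2, h3, h4, h1', h2', h3', h4', E.inf]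
  | or φ ψ ih ih' =>
    obtain ⟨h1, h2, h3, h4⟩ := ih (fun n hn => h (Or.inl hn))
    obtain ⟨h1', h2', h3', h4'⟩ := ih' (fun n hn => h (Or.inr hn))
    simp [T, h1, h2, h3, h4, h1', h2', h3', h4', E.sup]
  | imp φ ψ ih ih' =>
    obtain ⟨h1, h2, h3, h4⟩ := ih (fun n hn => h (Or.inl hn))
    obtain ⟨h1', h2', h3', h4'⟩ := ih' (fun n hn => h (Or.inr hn))
    have itop : ∀ x : E, x.imp .top = .top := by intro x; cases x <;> rfl
    have ibot : ∀ x : E, E.bot.imp x = .top := by intro x; cases x <;> rfl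
    refine ⟨?_, ?_, ?_, ?_⟩
    · refine meet5_eq_top ?_
      intro u
      cases u <;> simp [M5.mul, h3, h4, h1', itop, ibot]
    · refine meet5_eq_top ?_
      intro u
      cases u <;> simp [M5.mul, h3, h4, h1', h2', itop, ibot]
    · have := meet5_le (fun u => (T Q φ u).imp (T Q ψ (M5.mul .a' u))) .a
      refine E.eq_bot_of_le (E.le_trans this ?_)
      simp [M5.mul, h1, h4', E.imp, E.le]
    · have := meet5_le (fun u => (T Q φ u).imp (T Q ψ (M5.mul .b u))) .a
      refine E.eq_bot_of_le (E.le_trans this ?_)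
      simp [M5.mul, h1, h4', E.imp, E.le]

end Pool.Agent.R599.TT
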